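import Mathlib
import Pool.Agent.Helper6.ER2.Comb

/-! Union bound over a window. -/

namespace Pool.Agent.Helper6.ER3

open Finset Pool.Agent.Helper6.ER Pool.Agent.Helper6.ER2

theorem union_bound3 {x k y : ℕ} {a : ℕ → ℤ} (Ms : Finset ℕ) (P : ℕ → Finset ℕ) (T : Finset ℕ)
    (hT : T ⊆ Icc 1 k)
    (hM : ∀ m ∈ Ms, 1 ≤ m ∧ m ≤ x ∧ m.primeFactors ⊆ NN y a ∧ (2 ∈ NN y a → 2 ∣ m))
    (hP : ∀ m ∈ Ms, ∀ p ∈ P m, p.Prime ∧ x < p ∧ m * p ∈ T ∧
      ∀ q ∈ NN y a, 3 ≤ q → ¬ q ∣ m → ¬ (q : ℤ) ∣ ((m * p : ℕ) : ℤ) - a q)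
    (hcov : ∀ t ∈ T, ∃ p ∈ PR x, (p : ℤ) ∣ (t : ℤ) - a p) :
    ∑ m ∈ Ms, (P m).card ≤ ∑ p ∈ EX x y a, (UP x k (EX x y a) a p).card := by
  classical
  obtain ⟨U, hU⟩ : ∃ U, U = T.filter
      (fun t : ℕ => ∀ q ∈ PR x \ EX x y a, ¬ (q : ℤ) ∣ (t : ℤ) - a q) := ⟨_, rfl⟩
  have h1 : ∑ m ∈ Ms, (P m).card ≤ U.card := by
    rw [← Finset.card_sigma]
    apply Finset.card_le_card_of_injOn (fun s : (Σ _ : ℕ, ℕ) => s.1 * s.2)
    · rintro ⟨m, p⟩ hs
      rw [Finset.mem_coe, Finset.mem_sigma] at hs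
      obtain ⟨hm, hp⟩ := hs
      obtain ⟨hm1, hmx, hmS, hm2⟩ := hM m hm
      obtain ⟨hpp, hxp, hmk, hN⟩ := hP m hm p hp
      dsimp only at *
      rw [Finset.mem_coe, hU, mem_filter]
      refine ⟨hmk, ?_⟩
      intro q hq hdvd
      rw [mem_sdiff, mem_PR] at hq
      obtain ⟨⟨hqx, hqp⟩, hqE⟩ := hq
      rw [mem_EX] at hqE
      have hqP : ¬ q ∣ p := by
        intro h
        have := (Nat.prime_dvd_prime_iff_eq hqp hpp).mp h
        omega
      by_cases hqa : (q : ℤ) ∣ a q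
      · -- zero class
        have hdvd2 : (q : ℤ) ∣ ((m * p : ℕ) : ℤ) := by
          have := dvd_add hdvd hqa
          rwa [sub_add_cancel] at this
        have hdvd3 : q ∣ m * p := by exact_mod_cast hdvd2
        have hqm : q ∣ m := by
          rcases hqp.dvd_mul.mp hdvd3 with h | h
          · exact h
          · exact absurd h hqP
        have h2 := hmS (Nat.mem_primeFactors.mpr ⟨hqp, hqm, by omega⟩)
        exact (mem_NN.mp h2).2 hqa
      · by_cases hqy : q ≤ y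
        · have hqN : q ∈ NN y a := mem_NN.mpr ⟨⟨hqy, hqp⟩, hqa⟩
          by_cases hqm : q ∣ m
          · apply hqa
            have h3 : (q : ℤ) ∣ ((m * p : ℕ) : ℤ) := by exact_mod_cast hqm.mul_right p
            have := dvd_sub h3 hdvd
            rwa [sub_sub_cancel] at this
          · have h3 : 3 ≤ q := by
              have h2 := hqp.two_le
              rcases Nat.lt_or_ge q 3 with h | h
              · have : q = 2 := by omega
                subst this
                exact absurd (hm2 hqN) hqm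
              · exact h
            exact hN q hqN h3 hqm hdvd
        · exact hqE ⟨⟨hqx, hqp⟩, by omega, hqa⟩
    · rintro ⟨m, p⟩ hs ⟨m', p'⟩ hs' heq
      rw [Finset.mem_coe, Finset.mem_sigma] at hs hs'
      obtain ⟨hm, hp⟩ := hs
      obtain ⟨hm', hp'⟩ := hs'
      obtain ⟨hm1, hmx, _, _⟩ := hM m hm
      obtain ⟨hm1', hmx', _, _⟩ := hM m' hm'
      obtain ⟨hpp, hxp, _, _⟩ := hP m hm p hp
      obtain ⟨hpp', hxp', _, _⟩ := hP m' hm' p' hp'
      dsimp only at *
      have hPP : p = p' := by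
        have h : p ∣ m' * p' := ⟨m, by rw [← heq, mul_comm]⟩
        rcases hpp.dvd_mul.mp h with h | h
        · have := Nat.le_of_dvd (by omega) h
          omega
        · exact (Nat.prime_dvd_prime_iff_eq hpp hpp').mp h
      subst hPP
      have hmm : m = m' := Nat.eq_of_mul_eq_mul_right hpp.pos heq
      subst hmm
      rfl
  refine h1.trans ?_
  have h2 : U ⊆ (EX x y a).biUnion (fun p => UP x k (EX x y a) a p) := by
    intro t ht
    rw [hU, mem_filter] at ht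
    obtain ⟨p, hp, hpd⟩ := hcov t ht.1
    rw [mem_biUnion]
    have hpE : p ∈ EX x y a := by
      by_contra h
      exact ht.2 p (mem_sdiff.mpr ⟨hp, h⟩) hpd
    refine ⟨p, hpE, ?_⟩
    unfold UP
    rw [mem_filter]
    exact ⟨hT ht.1, hpd, ht.2⟩
  exact (Finset.card_le_card h2).trans Finset.card_biUnion_le

end Pool.Agent.Helper6.ER3
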