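import Mathlib
import Pool.Agent.Helper6.ER3.Comb
import Pool.Agent.Helper6.ER2.Core

/-! The core inequality, for windows of any width and coverings of any polynomial length. -/

namespace Pool.Agent.Helper6.ER3

open Finset Filter Pool.Agent.Helper6.ER Pool.Agent.Helper6.ER2 Pool.Agent.Helper6.SW

/-- capacity bound for `k ≤ x ^ A` -/
def CapacityA (A : ℕ) (C : ℝ) : Prop := ∀ (x k p : ℕ) (Dx : Finset ℕ) (a : ℕ → ℤ), 2 ≤ x →
    p ∈ Dx → (∀ q ∈ Dx, q.Prime ∧ q ≤ x) → ∑ q ∈ Dx, (1 : ℝ) / q ≤ 1 → 2 * x ≤ k → k ≤ x ^ A →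
    ((UP x k Dx a p).card : ℝ) ≤ C * ((k : ℝ) / p) / Real.log ((k : ℝ) / p)

/-- the statement of the core theorem for given constants -/
def StCore3 (V : ℝ) (A : ℕ) (K₀ c₀ c₁ : ℝ) : Prop := ∃ x₀ : ℕ, ∀ x ≥ x₀,
    ∀ (y k : ℕ) (a : ℕ → ℤ), 2 ≤ y → (y : ℝ) ≤ (x : ℝ) ^ c₀ → K₀ * x ≤ k → k ≤ x ^ A →
    (∀ t : ℕ, Real.exp (-(2 * V)) * k < t → t ≤ k → ∃ p ∈ PR x, (p : ℤ) ∣ (t : ℤ) - a p) →
    c₁ * min 1 (Real.log ((k : ℝ) / x) / Real.log y) ≤
      ∑ p ∈ EX x y a, (1 / (p : ℝ)) * (Real.log x / Real.log ((k : ℝ) / p))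

theorem core3_step {V c₀ c X₀ cN cT Cc : ℝ} {A : ℕ} (hA : 2 ≤ A) (hV : 0 < V) (hc : 0 < c)
    (hcN : 0 < cN) (hcT : 0 < cT) (hCc : 0 < Cc)
    (hPSL : ∀ X ≥ X₀, ∀ (y : ℕ) (S : Finset ℕ) (r : ℕ → ℤ), (y : ℝ) ≤ X ^ c₀ →
      (∀ q ∈ S, q.Prime ∧ 3 ≤ q ∧ q ≤ y ∧ ¬ (q : ℤ) ∣ r q) →
      c * (X / Real.log X) * ∏ q ∈ S, (1 - 1 / (q : ℝ)) ≤
        (((PX V X).filter (fun p : ℕ => Real.exp (-V) * X < p ∧
          ∀ q ∈ S, ¬ (q : ℤ) ∣ (p : ℤ) - r q)).card : ℝ))
    (hNs : ∀ (Y : ℕ) (S : Finset ℕ), 2 ≤ Y → (∀ q ∈ S, q.Prime ∧ q ≤ Y) →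
      cN * ∏ q ∈ S, (1 - 1 / (q : ℝ))⁻¹ ≤
        ∑ m ∈ (Icc 1 Y).filter (fun m => m.primeFactors ⊆ S ∧ (2 ∈ S → 2 ∣ m)), (1 : ℝ) / m)
    (hT : ∀ (Y y : ℕ) (T : Finset ℕ), 2 ≤ Y → Y ≤ y → (∀ q ∈ T, q.Prime ∧ Y < q ∧ q ≤ y) →
      cT * (Real.log Y / Real.log y) ≤ ∏ q ∈ T, (1 - 1 / (q : ℝ)))
    (hcap : CapacityA A Cc) (hc₀ : 0 < c₀) (hc₀1 : c₀ ≤ 1)
    {x k y : ℕ} {a : ℕ → ℤ} {L : ℝ} (hL : L = Real.log x) (hx : 3 ≤ x) (hX₀ : X₀ ≤ x)
    (hy2 : 2 ≤ y) (hyx : (y : ℝ) ≤ (x : ℝ) ^ c₀)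
    (hk1 : 16 * Real.exp (4 * V) * x ≤ k) (hk2 : k ≤ x ^ A)
    (hcov : ∀ t : ℕ, Real.exp (-(2 * V)) * k < t → t ≤ k → ∃ p ∈ PR x, (p : ℤ) ∣ (t : ℤ) - a p) :
    min (1 / (A : ℝ)) (c * cN * cT / (2 * A * Real.exp V * Cc)) *
        min 1 (Real.log ((k : ℝ) / x) / Real.log y) ≤
      ∑ p ∈ EX x y a, (1 / (p : ℝ)) * (L / Real.log ((k : ℝ) / p)) := by
  classical
  have hA2 : (2 : ℝ) ≤ A := by exact_mod_cast hA
  have hA0 : (0 : ℝ) < A := by linarith
  have hx0 : (0 : ℝ) < x := by exact_mod_cast (by omega : 0 < x)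
  have hx3 : (3 : ℝ) ≤ x := by exact_mod_cast hx
  have hL1 : 1 < L := by
    rw [hL, ← Real.log_exp 1]
    apply Real.log_lt_log (Real.exp_pos 1)
    have := Real.exp_one_lt_d9
    linarith
  have hL0 : 0 < L := by linarith
  have he1 : 1 < Real.exp V := by
    have := Real.add_one_lt_exp hV.ne'
    linarith
  have he4 : Real.exp (4 * V) = Real.exp V ^ 4 := by
    rw [← Real.exp_nat_mul]
    norm_num
  have he4' : 1 ≤ Real.exp V ^ 4 := one_le_pow₀ he1.le
  have hk16 : 16 * (x : ℝ) ≤ k := by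
    refine le_trans ?_ hk1
    rw [he4]
    nlinarith
  have hk0 : (0 : ℝ) < k := by linarith
  have hk2x : 2 * x ≤ k := by
    have : (2 : ℝ) * x ≤ k := by linarith
    exact_mod_cast this
  have hkr2 : (k : ℝ) ≤ (x : ℝ) ^ A := by exact_mod_cast hk2
  have hlogk : Real.log k ≤ A * L := by
    have h4 := Real.log_le_log hk0 hkr2
    rw [Real.log_pow, ← hL] at h4
    exact h4
  have hly : 0 < Real.log y := Real.log_pos (by exact_mod_cast (by omega : 1 < y))
  have hKx : 16 ≤ (k : ℝ) / x := by rw [le_div_iff₀ hx0]; linarith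
  have hlogK : 0 < Real.log ((k : ℝ) / x) := Real.log_pos (by linarith)
  have hEx : ∀ p ∈ EX x y a, p.Prime ∧ p ≤ x := by
    intro p hp
    have := mem_EX.mp hp
    exact ⟨this.1.2, this.1.1⟩
  have hlogkp : ∀ p ∈ EX x y a, 0 < Real.log ((k : ℝ) / p) ∧ Real.log ((k : ℝ) / p) ≤ A * L := by
    intro p hp
    obtain ⟨hpp, hpx⟩ := hEx p hp
    have hp0 : (0 : ℝ) < p := by exact_mod_cast hpp.pos
    constructor
    · apply Real.log_pos
      rw [lt_div_iff₀ hp0, one_mul]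
      have : p < k := by omega
      exact_mod_cast this
    · refine le_trans (Real.log_le_log (div_pos hk0 hp0) ?_) hlogk
      exact div_le_self hk0.le (by exact_mod_cast hpp.one_lt.le)
  have hmin1 : min 1 (Real.log ((k : ℝ) / x) / Real.log y) ≤ 1 := min_le_left _ _
  have hmin0 : 0 ≤ min 1 (Real.log ((k : ℝ) / x) / Real.log y) :=
    le_min zero_le_one (div_nonneg hlogK.le hly.le)
  rcases lt_or_ge 1 (∑ q ∈ EX x y a, (1 : ℝ) / q) with hbig | hsmall
  · -- many exceptional primes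
    calc min (1 / (A : ℝ)) (c * cN * cT / (2 * A * Real.exp V * Cc)) *
          min 1 (Real.log ((k : ℝ) / x) / Real.log y)
        ≤ (1 / (A : ℝ)) * 1 := mul_le_mul (min_le_left _ _) hmin1 hmin0 (by positivity)
      _ ≤ (1 / (A : ℝ)) * ∑ q ∈ EX x y a, (1 : ℝ) / q :=
          mul_le_mul_of_nonneg_left hbig.le (by positivity)
      _ = ∑ q ∈ EX x y a, (1 : ℝ) / q * (1 / (A : ℝ)) := by rw [← Finset.sum_mul]; ring
      _ ≤ ∑ p ∈ EX x y a, (1 / (p : ℝ)) * (L / Real.log ((k : ℝ) / p)) := by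
          apply Finset.sum_le_sum
          intro p hp
          obtain ⟨h1, h2⟩ := hlogkp p hp
          apply mul_le_mul_of_nonneg_left _ (by positivity)
          rw [div_le_div_iff₀ hA0 h1]
          linarith
  · -- main case
    have hyxn : y ≤ x := by
      have h1 : (y : ℝ) ≤ x := by
        refine hyx.trans ?_
        calc (x : ℝ) ^ c₀ ≤ (x : ℝ) ^ (1 : ℝ) :=
              Real.rpow_le_rpow_of_exponent_le (by linarith) hc₀1
          _ = x := Real.rpow_one _
      exact_mod_cast h1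
    -- the length of the multipliers
    obtain ⟨Z, hZ⟩ : ∃ Z : ℝ, Z = (k : ℝ) / (Real.exp (2 * V) * x) := ⟨_, rfl⟩
    have he2 : Real.exp (2 * V) = Real.exp V ^ 2 := by
      rw [← Real.exp_nat_mul]
      norm_num
    have he20 : 0 < Real.exp (2 * V) := Real.exp_pos _
    have hZ16 : 16 ≤ Z := by
      rw [hZ, le_div_iff₀ (by positivity)]
      refine le_trans ?_ hk1
      rw [he2, he4]
      have : Real.exp V ^ 2 ≤ Real.exp V ^ 4 := pow_le_pow_right₀ he1.le (by norm_num)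
      nlinarith
    obtain ⟨Y, hY⟩ : ∃ Y, Y = min y ⌊Z⌋₊ := ⟨_, rfl⟩
    have hY2 : 2 ≤ Y := by
      rw [hY]
      apply le_min hy2
      apply Nat.le_floor
      push_cast
      linarith
    have hYy : Y ≤ y := by rw [hY]; exact min_le_left _ _
    have hYZ : (Y : ℝ) ≤ Z := by
      have h1 : Y ≤ ⌊Z⌋₊ := by rw [hY]; exact min_le_right _ _
      calc (Y : ℝ) ≤ (⌊Z⌋₊ : ℝ) := by exact_mod_cast h1
        _ ≤ Z := Nat.floor_le (by linarith)
    have hminY : min Y y = Y := min_eq_left hYy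
    have hlY : 0 < Real.log Y := Real.log_pos (by exact_mod_cast (by omega : 1 < Y))
    -- log Y is large
    have hlogY : (1 / 2) * min 1 (Real.log ((k : ℝ) / x) / Real.log y) ≤
        Real.log Y / Real.log y := by
      rw [le_div_iff₀ hly]
      rcases le_total y ⌊Z⌋₊ with h | h
      · have : Y = y := by rw [hY]; exact min_eq_left h
        rw [this]
        nlinarith
      · have hYf : Y = ⌊Z⌋₊ := by rw [hY]; exact min_eq_right h
        have h1 : Z / 2 ≤ Y := by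
          rw [hYf]
          have := Nat.lt_floor_add_one Z
          linarith
        have h2 : ((k : ℝ) / x) ^ (1 / 2 : ℝ) ≤ Z / 2 := by
          -- (k/x)^(1/2) <= (k/x)/(2 e^{2V})
          obtain ⟨w, hw⟩ : ∃ w, w = ((k : ℝ) / x) ^ (1 / 2 : ℝ) := ⟨_, rfl⟩
          have hw0 : 0 < w := by rw [hw]; positivity
          have hw2 : w ^ 2 = (k : ℝ) / x := by
            rw [hw, ← Real.rpow_natCast, ← Real.rpow_mul (by positivity)]
            norm_num
          have hwge : 4 * Real.exp (2 * V) ≤ w := by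
            have h3 : (4 * Real.exp (2 * V)) ^ 2 ≤ w ^ 2 := by
              rw [hw2, le_div_iff₀ hx0]
              refine le_trans (le_of_eq ?_) hk1
              rw [he4, he2]
              ring
            exact (pow_le_pow_iff_left₀ (by positivity) hw0.le (by norm_num)).mp h3
          rw [← hw, hZ]
          have h5 : (k : ℝ) / (Real.exp (2 * V) * x) = w ^ 2 / Real.exp (2 * V) := by
            rw [hw2]
            field_simp
          rw [h5, le_div_iff₀ (by norm_num), le_div_iff₀ he20]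
          nlinarith
        have h3 := Real.log_le_log (by positivity) (h2.trans h1)
        rw [Real.log_rpow (by positivity)] at h3
        calc (1 / 2) * min 1 (Real.log ((k : ℝ) / x) / Real.log y) * Real.log y
            ≤ (1 / 2) * (Real.log ((k : ℝ) / x) / Real.log y) * Real.log y := by
              apply mul_le_mul_of_nonneg_right _ hly.le
              exact mul_le_mul_of_nonneg_left (min_le_right _ _) (by norm_num)
          _ = (1 / 2) * Real.log ((k : ℝ) / x) := by field_simp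
          _ ≤ Real.log Y := h3
    -- sums over multipliers
    obtain ⟨Ms, hMs⟩ : ∃ Ms, Ms = (Icc 1 Y).filter
      (fun m => m.primeFactors ⊆ NN Y a ∧ (2 ∈ NN Y a → 2 ∣ m)) := ⟨_, rfl⟩
    have hNNsub : NN Y a ⊆ NN y a := by
      intro q hq
      rw [mem_NN] at hq ⊢
      exact ⟨⟨hq.1.1.trans hYy, hq.1.2⟩, hq.2⟩
    have hfac : ∀ q : ℕ, q.Prime → 0 < 1 - 1 / (q : ℝ) ∧ 1 - 1 / (q : ℝ) ≤ 1 := by
      intro q hq
      have h1 : (1 : ℝ) < q := by exact_mod_cast hq.one_lt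
      constructor
      · have : 1 / (q : ℝ) < 1 := by rw [div_lt_one (by linarith)]; exact h1
        linarith
      · have : 0 < 1 / (q : ℝ) := by positivity
        linarith
    have hMprop : ∀ m ∈ Ms, 1 ≤ m ∧ m ≤ Y ∧ m.primeFactors ⊆ NN Y a ∧ (2 ∈ NN Y a → 2 ∣ m) := by
      intro m hm
      rw [hMs, mem_filter, mem_Icc] at hm
      exact ⟨hm.1.1, hm.1.2, hm.2.1, hm.2.2⟩
    have hsumM : cN * cT * (Real.log Y / Real.log y) ≤
        (∏ q ∈ NN y a, (1 - 1 / (q : ℝ))) * ∑ m ∈ Ms, (1 : ℝ) / m := by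
      have h1 := hNs Y (NN Y a) hY2 (fun q hq => ⟨(mem_NN.mp hq).1.2, (mem_NN.mp hq).1.1⟩)
      rw [← hMs] at h1
      have h2 := hT Y y (NN y a \ NN Y a) hY2 hYy (by
        intro q hq
        rw [Finset.mem_sdiff, mem_NN, mem_NN] at hq
        refine ⟨hq.1.1.2, ?_, hq.1.1.1⟩
        by_contra h
        push Not at h
        exact hq.2 ⟨⟨h, hq.1.1.2⟩, hq.1.2⟩)
      have h3 : ∏ q ∈ NN y a, (1 - 1 / (q : ℝ)) =
          (∏ q ∈ NN y a \ NN Y a, (1 - 1 / (q : ℝ))) * ∏ q ∈ NN Y a, (1 - 1 / (q : ℝ)) :=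
        (Finset.prod_sdiff hNNsub).symm
      have h4 : 0 < ∏ q ∈ NN Y a, (1 - 1 / (q : ℝ)) :=
        Finset.prod_pos (fun q hq => (hfac q (mem_NN.mp hq).1.2).1)
      have h5 : 0 < ∏ q ∈ NN y a \ NN Y a, (1 - 1 / (q : ℝ)) :=
        Finset.prod_pos (fun q hq => (hfac q (mem_NN.mp (Finset.mem_sdiff.mp hq).1).1.2).1)
      rw [Finset.prod_inv_distrib] at h1
      rw [h3]
      calc cN * cT * (Real.log Y / Real.log y)
          = cN * (cT * (Real.log Y / Real.log y)) := by ring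
        _ ≤ cN * ∏ q ∈ NN y a \ NN Y a, (1 - 1 / (q : ℝ)) := mul_le_mul_of_nonneg_left h2 hcN.le
        _ = (∏ q ∈ NN y a \ NN Y a, (1 - 1 / (q : ℝ))) * (∏ q ∈ NN Y a, (1 - 1 / (q : ℝ))) *
            (cN * (∏ q ∈ NN Y a, (1 - 1 / (q : ℝ)))⁻¹) := by
            field_simp
        _ ≤ (∏ q ∈ NN y a \ NN Y a, (1 - 1 / (q : ℝ))) * (∏ q ∈ NN Y a, (1 - 1 / (q : ℝ))) *
            ∑ m ∈ Ms, (1 : ℝ) / m := mul_le_mul_of_nonneg_left h1 (by positivity)
    -- lower bound for the primes belonging to one multiplier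
    obtain ⟨XX, hXX⟩ : ∃ XX : ℕ → ℝ, XX = fun m : ℕ => (k : ℝ) / (Real.exp V * (m : ℝ)) := ⟨_, rfl⟩
    obtain ⟨P, hP⟩ : ∃ P : ℕ → Finset ℕ, P = fun m => PSet V (XX m) y m a := ⟨_, rfl⟩
    have hXfacts : ∀ m ∈ Ms, (x : ℝ) ≤ Real.exp (-V) * XX m ∧ (x : ℝ) ≤ XX m ∧ XX m ≤ k := by
      intro m hm
      obtain ⟨hm1, hmY, _, _⟩ := hMprop m hm
      have hm0 : (0 : ℝ) < m := by exact_mod_cast hm1
      have hm1r : (1 : ℝ) ≤ m := by exact_mod_cast hm1
      have hmZ : (m : ℝ) ≤ Z := le_trans (by exact_mod_cast hmY) hYZ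
      have h1 : (x : ℝ) ≤ Real.exp (-V) * XX m := by
        rw [hXX]
        change (x : ℝ) ≤ Real.exp (-V) * ((k : ℝ) / (Real.exp V * m))
        have h2 : Real.exp (-V) * ((k : ℝ) / (Real.exp V * m)) = k / (Real.exp (2 * V) * m) := by
          rw [Real.exp_neg, he2]
          field_simp
        rw [h2, le_div_iff₀ (by positivity)]
        rw [hZ, le_div_iff₀ (by positivity)] at hmZ
        linarith
      have hX0 : 0 < XX m := by
        rw [hXX]
        positivity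
      refine ⟨h1, h1.trans ?_, ?_⟩
      · have h3 : Real.exp (-V) ≤ 1 := Real.exp_le_one_iff.mpr (by linarith)
        nlinarith
      · rw [hXX]
        apply div_le_self hk0.le
        nlinarith
    have hPlow : ∀ m ∈ Ms, (c * k / (A * Real.exp V * L)) * (∏ q ∈ NN y a, (1 - 1 / (q : ℝ))) *
        ((1 : ℝ) / m) ≤ ((P m).card : ℝ) := by
      intro m hm
      obtain ⟨hm1, hmY, _, _⟩ := hMprop m hm
      obtain ⟨hX1, hX2, hX3⟩ := hXfacts m hm
      have hm0 : (0 : ℝ) < m := by exact_mod_cast hm1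
      have hX0 : 0 < XX m := by linarith
      have h1 := hPSL (XX m) (by linarith) y ((NN y a).filter (fun q => 3 ≤ q ∧ ¬ q ∣ m)) (rr a m)
        (hyx.trans (Real.rpow_le_rpow hx0.le hX2 hc₀.le)) (by
          intro q hq
          rw [mem_filter, mem_NN] at hq
          exact ⟨hq.1.1.2, hq.2.1, hq.1.1.1, (rr_spec hq.1.1.2 hq.2.2 hq.1.2).1⟩)
      rw [hP]
      refine le_trans ?_ h1
      have h2 : ∏ q ∈ NN y a, (1 - 1 / (q : ℝ)) ≤
          ∏ q ∈ (NN y a).filter (fun q => 3 ≤ q ∧ ¬ q ∣ m), (1 - 1 / (q : ℝ)) := by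
        rw [← Finset.prod_filter_mul_prod_filter_not (NN y a) (fun q => 3 ≤ q ∧ ¬ q ∣ m)]
        have h3 : ∏ q ∈ (NN y a).filter (fun q => ¬ (3 ≤ q ∧ ¬ q ∣ m)), (1 - 1 / (q : ℝ)) ≤ 1 := by
          apply Finset.prod_le_one
          · intro q hq
            exact (hfac q (mem_NN.mp (mem_filter.mp hq).1).1.2).1.le
          · intro q hq
            exact (hfac q (mem_NN.mp (mem_filter.mp hq).1).1.2).2
        have h4 : 0 ≤ ∏ q ∈ (NN y a).filter (fun q => 3 ≤ q ∧ ¬ q ∣ m), (1 - 1 / (q : ℝ)) :=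
          Finset.prod_nonneg (fun q hq => (hfac q (mem_NN.mp (mem_filter.mp hq).1).1.2).1.le)
        calc _ ≤ (∏ q ∈ (NN y a).filter (fun q => 3 ≤ q ∧ ¬ q ∣ m), (1 - 1 / (q : ℝ))) * 1 :=
              mul_le_mul_of_nonneg_left h3 h4
          _ = _ := mul_one _
      have hlX : Real.log (XX m) ≤ A * L := (Real.log_le_log hX0 hX3).trans hlogk
      have hlX0 : 0 < Real.log (XX m) := Real.log_pos (by linarith)
      have h5 : (k : ℝ) / (A * Real.exp V * L) * (1 / m) ≤ XX m / Real.log (XX m) := by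
        have h6 : (k : ℝ) / (A * Real.exp V * L) * (1 / m) = XX m / (A * L) := by
          rw [hXX]
          field_simp
        rw [h6]
        exact div_le_div_of_nonneg_left hX0.le hlX0 hlX
      have hprod0 : 0 < ∏ q ∈ NN y a, (1 - 1 / (q : ℝ)) :=
        Finset.prod_pos (fun q hq => (hfac q (mem_NN.mp hq).1.2).1)
      calc (c * k / (A * Real.exp V * L)) * (∏ q ∈ NN y a, (1 - 1 / (q : ℝ))) * ((1 : ℝ) / m)
          = c * ((k : ℝ) / (A * Real.exp V * L) * (1 / m)) * ∏ q ∈ NN y a, (1 - 1 / (q : ℝ)) := by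
            ring
        _ ≤ c * (XX m / Real.log (XX m)) *
            ∏ q ∈ (NN y a).filter (fun q => 3 ≤ q ∧ ¬ q ∣ m), (1 - 1 / (q : ℝ)) := by
            apply mul_le_mul (mul_le_mul_of_nonneg_left h5 hc.le) h2 hprod0.le
            positivity
    -- union bound
    obtain ⟨T, hT⟩ : ∃ T, T = (Icc 1 k).filter (fun t : ℕ => Real.exp (-(2 * V)) * k < t) :=
      ⟨_, rfl⟩
    have hun := union_bound3 (x := x) (k := k) (y := y) (a := a) Ms P T
      (by rw [hT]; exact filter_subset _ _) (by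
      intro m hm
      obtain ⟨hm1, hmY, hmS, hm2⟩ := hMprop m hm
      refine ⟨hm1, hmY.trans (hYy.trans hyxn), hmS.trans hNNsub, ?_⟩
      intro h2
      apply hm2
      rw [mem_NN] at h2 ⊢
      exact ⟨⟨hY2, h2.1.2⟩, h2.2⟩) (by
      intro m hm p hp
      obtain ⟨hm1, hmY, _, _⟩ := hMprop m hm
      obtain ⟨hX1, hX2, hX3⟩ := hXfacts m hm
      have hm0 : (0 : ℝ) < m := by exact_mod_cast hm1
      rw [hP] at hp
      unfold ER2.PSet PX at hp
      rw [mem_filter, mem_filter, mem_Icc] at hp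
      obtain ⟨⟨⟨hp1, hp2⟩, hpp⟩, hp3, hp4⟩ := hp
      refine ⟨hpp, ?_, ?_, ?_⟩
      · have : (x : ℝ) < p := lt_of_le_of_lt hX1 hp3
        exact_mod_cast this
      · have h1 : (p : ℝ) ≤ Real.exp V * XX m := by
          have h2 : (p : ℝ) ≤ (NX V (XX m) : ℝ) := by exact_mod_cast hp2
          refine h2.trans ?_
          unfold NX
          exact Nat.floor_le (by have := Real.exp_pos V; nlinarith)
        have h3 : (m : ℝ) * p ≤ k := by
          calc (m : ℝ) * p ≤ m * (Real.exp V * XX m) := mul_le_mul_of_nonneg_left h1 hm0.le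
            _ = k := by
                rw [hXX]
                field_simp
        have h4 : Real.exp (-(2 * V)) * k < (m : ℝ) * p := by
          calc Real.exp (-(2 * V)) * k = m * (Real.exp (-V) * XX m) := by
                rw [hXX, Real.exp_neg, Real.exp_neg, he2]
                field_simp
            _ < m * p := mul_lt_mul_of_pos_left hp3 hm0
        rw [hT, mem_filter, mem_Icc]
        refine ⟨⟨Nat.mul_pos (by omega) hpp.pos, by exact_mod_cast h3⟩, ?_⟩
        push_cast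
        exact h4
      · intro q hq hq3 hqm hdvd
        have hqp := (mem_NN.mp hq).1.2
        exact hp4 q (mem_filter.mpr ⟨hq, hq3, hqm⟩)
          ((rr_spec hqp hqm (mem_NN.mp hq).2).2 p hdvd)) (by
      intro t ht
      rw [hT, mem_filter, mem_Icc] at ht
      exact hcov t ht.2 ht.1.2)
    have hun' : (∑ m ∈ Ms, ((P m).card : ℝ)) ≤
        ∑ p ∈ EX x y a, ((UP x k (EX x y a) a p).card : ℝ) := by exact_mod_cast hun
    have hcapp : ∀ p ∈ EX x y a, ((UP x k (EX x y a) a p).card : ℝ) ≤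
        Cc * ((k : ℝ) / p) / Real.log ((k : ℝ) / p) := by
      intro p hp
      exact hcap x k p (EX x y a) a (by omega) hp hEx hsmall hk2x hk2
    have hlow : (c * k / (A * Real.exp V * L)) * (cN * cT * (Real.log Y / Real.log y)) ≤
        ∑ m ∈ Ms, ((P m).card : ℝ) := by
      calc (c * k / (A * Real.exp V * L)) * (cN * cT * (Real.log Y / Real.log y))
          ≤ (c * k / (A * Real.exp V * L)) *
            ((∏ q ∈ NN y a, (1 - 1 / (q : ℝ))) * ∑ m ∈ Ms, (1 : ℝ) / m) :=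
            mul_le_mul_of_nonneg_left hsumM (by positivity)
        _ = ∑ m ∈ Ms, (c * k / (A * Real.exp V * L)) * (∏ q ∈ NN y a, (1 - 1 / (q : ℝ))) *
            ((1 : ℝ) / m) := by
            rw [Finset.mul_sum, Finset.mul_sum]
            apply Finset.sum_congr rfl
            intro m _
            ring
        _ ≤ _ := Finset.sum_le_sum hPlow
    have hfinal : (c * cN * cT / (2 * A * Real.exp V * Cc)) *
        min 1 (Real.log ((k : ℝ) / x) / Real.log y) ≤
        ∑ p ∈ EX x y a, (1 / (p : ℝ)) * (L / Real.log ((k : ℝ) / p)) := by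
      have h1 : (c * k / (A * Real.exp V * L)) * (cN * cT * (Real.log Y / Real.log y)) ≤
          ∑ p ∈ EX x y a, Cc * ((k : ℝ) / p) / Real.log ((k : ℝ) / p) :=
        hlow.trans (hun'.trans (Finset.sum_le_sum hcapp))
      have h2 : ∑ p ∈ EX x y a, Cc * ((k : ℝ) / p) / Real.log ((k : ℝ) / p) =
          (Cc * k / L) * ∑ p ∈ EX x y a, (1 / (p : ℝ)) * (L / Real.log ((k : ℝ) / p)) := by
        rw [Finset.mul_sum]
        apply Finset.sum_congr rfl
        intro p hp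
        have h3 := (hlogkp p hp).1
        have h4 : (0 : ℝ) < p := by exact_mod_cast (hEx p hp).1.pos
        field_simp
      rw [h2] at h1
      have h5 : (c * k / (A * Real.exp V * L)) * (cN * cT * (Real.log Y / Real.log y)) =
          (Cc * k / L) * ((c * cN * cT / (A * Real.exp V * Cc)) * (Real.log Y / Real.log y)) := by
        field_simp
      rw [h5] at h1
      have h6 := le_of_mul_le_mul_left h1 (by positivity)
      refine le_trans ?_ h6
      calc (c * cN * cT / (2 * A * Real.exp V * Cc)) *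
            min 1 (Real.log ((k : ℝ) / x) / Real.log y)
          = (c * cN * cT / (A * Real.exp V * Cc)) *
            ((1 / 2) * min 1 (Real.log ((k : ℝ) / x) / Real.log y)) := by
            field_simp
        _ ≤ _ := mul_le_mul_of_nonneg_left hlogY (by positivity)
    exact le_trans (mul_le_mul_of_nonneg_right (min_le_right _ _) hmin0) hfinal

end Pool.Agent.Helper6.ER3
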