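import Mathlib
import Pool.Agent.Helper6.ER3.Core
import Pool.Agent.Helper11.ER.BoxLower
import Pool.Agent.Helper16.ER.TauPhi
import Pool.Agent.Helper4.ER.Capacity

/-! Every covering has polynomial length, and the capacity bound for polynomial lengths. -/

namespace Pool.Agent.Helper6.ER3

open Finset Filter Pool.Agent.Helper6.ER Pool.Agent.Helper6.ER2

lemma count_progression (k b d : ℕ) (hd : 0 < d) :
    |(((Icc 1 k).filter (fun t => t ≡ b [MOD d])).card : ℝ) - (k : ℝ) / d| ≤ 1 := by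
  have hdr : (0 : ℝ) < d := by exact_mod_cast hd
  have h1 : (Icc 1 k).filter (fun t => t ≡ b [MOD d]) =
      (Ioc 0 k).filter (fun t => t ≡ b [MOD d]) := by
    congr 1
  have h2 := Nat.Ioc_filter_modEq_card 0 k hd b
  rw [h1]
  have h3 : (((Ioc 0 k).filter (fun t => t ≡ b [MOD d])).card : ℤ) =
      ⌊((k : ℤ) - b : ℚ) / d⌋ - ⌊((0 : ℤ) - b : ℚ) / d⌋ := by
    rw [h2]
    have h4 : ⌊((0 : ℤ) - b : ℚ) / d⌋ ≤ ⌊((k : ℤ) - b : ℚ) / d⌋ := by
      apply Int.floor_le_floor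
      apply div_le_div_of_nonneg_right _ (by positivity)
      push_cast
      linarith [(Nat.cast_nonneg k : (0 : ℚ) ≤ k)]
    push_cast at h4 ⊢
    rw [max_eq_left (by linarith)]
  have hf1 := Int.floor_le (((k : ℤ) - b : ℚ) / d)
  have hf2 := Int.lt_floor_add_one (((k : ℤ) - b : ℚ) / d)
  have hf3 := Int.floor_le (((0 : ℤ) - b : ℚ) / d)
  have hf4 := Int.lt_floor_add_one (((0 : ℤ) - b : ℚ) / d)
  have hq : ((((Ioc 0 k).filter (fun t => t ≡ b [MOD d])).card : ℤ) : ℚ) =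
      (⌊((k : ℤ) - b : ℚ) / d⌋ : ℚ) - (⌊((0 : ℤ) - b : ℚ) / d⌋ : ℚ) := by
    rw [h3]
    push_cast
    ring
  have hdq : (0 : ℚ) < d := by exact_mod_cast hd
  have he : ((k : ℤ) - b : ℚ) / d - ((0 : ℤ) - b : ℚ) / d = (k : ℚ) / d := by
    push_cast
    field_simp
    ring
  have h5 : |((((Ioc 0 k).filter (fun t => t ≡ b [MOD d])).card : ℤ) : ℚ) - (k : ℚ) / d| ≤ 1 := by
    rw [hq, abs_le]
    constructor <;> linarith
  have h6 : ((|((((Ioc 0 k).filter (fun t => t ≡ b [MOD d])).card : ℤ) : ℚ) - (k : ℚ) / d| : ℚ) : ℝ)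
      ≤ 1 := by exact_mod_cast h5
  push_cast at h6
  exact h6

/-- every covering has polynomial length -/
theorem poly_bound : ∃ A : ℕ, 2 ≤ A ∧ ∃ x₀ : ℕ, ∀ x ≥ x₀, ∀ (k : ℕ) (a : ℕ → ℤ),
    (∀ t ∈ Icc 1 k, ∃ p ∈ PR x, (p : ℤ) ∣ (t : ℤ) - a p) → k ≤ x ^ A := by
  classical
  obtain ⟨A, hA, hsieve⟩ := sieve_lower
  obtain ⟨c, hc, hprod⟩ := prod_primes_ge
  obtain ⟨x₁, hx₁⟩ := exists_nat_ge (2 / c)
  refine ⟨2 * A + 4, by omega, max x₁ 2, ?_⟩
  intro x hx k a hcov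
  have hxx₁ : x₁ ≤ x := (le_max_left _ _).trans hx
  have hx2 : 2 ≤ x := (le_max_right _ _).trans hx
  have hx2r : (2 : ℝ) ≤ x := by exact_mod_cast hx2
  obtain ⟨E, hE⟩ : ∃ E, E = Nat.log 2 x := ⟨_, rfl⟩
  have hE1 : 1 ≤ E := by
    rw [hE]
    exact Nat.log_pos (by norm_num) hx2
  have hEx : E < x := by
    rw [hE]
    exact Nat.log_lt_self 2 (by omega)
  have hQ : ∀ q ∈ PR x, q.Prime ∧ Nat.log 2 q ≤ E := by
    intro q hq
    rw [mem_PR] at hq
    exact ⟨hq.2, by rw [hE]; exact Nat.log_mono_right hq.1⟩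
  have hs := hsieve E (PR x) hQ ((Icc 1 k) ×ˢ {0}) (fun q ω => (q : ℤ) ∣ (ω.1 : ℤ) - a q) k
    (Nat.cast_nonneg k)
  have hempty : (((Icc 1 k) ×ˢ ({0} : Finset ℕ)).filter
      (fun ω : ℕ × ℕ => ∀ q ∈ PR x, ¬ (q : ℤ) ∣ (ω.1 : ℤ) - a q)) = ∅ := by
    rw [Finset.filter_eq_empty_iff]
    rintro ⟨t, u⟩ ht h
    rw [mem_product] at ht
    obtain ⟨p, hp, hd⟩ := hcov t ht.1
    exact h p hp hd
  rw [hempty, Finset.card_empty, Nat.cast_zero] at hs
  obtain ⟨D, hD⟩ : ∃ D, D = 2 ^ (A * (E + 1)) := ⟨_, rfl⟩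
  rw [← hD] at hs
  have hterm : ∀ s ∈ (PR x).powerset.filter (fun s => ∏ q ∈ s, q ≤ D),
      |((((Icc 1 k) ×ˢ ({0} : Finset ℕ)).filter
        (fun ω : ℕ × ℕ => ∀ q ∈ s, (q : ℤ) ∣ (ω.1 : ℤ) - a q)).card : ℝ) -
        (k : ℝ) / ((∏ q ∈ s, q : ℕ) : ℝ)| ≤ 1 := by
    intro s hs'
    rw [mem_filter, mem_powerset] at hs'
    have hsp : ∀ q ∈ s, q.Prime := fun q hq => (mem_PR.mp (hs'.1 hq)).2
    obtain ⟨b, hb⟩ := BL.crt a s hsp
    have hdpos : 0 < ∏ q ∈ s, q := Finset.prod_pos fun q hq => (hsp q hq).pos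
    have hcard : (((Icc 1 k) ×ˢ ({0} : Finset ℕ)).filter
        (fun ω : ℕ × ℕ => ∀ q ∈ s, (q : ℤ) ∣ (ω.1 : ℤ) - a q)).card =
        ((Icc 1 k).filter (fun t => t ≡ b [MOD ∏ q ∈ s, q])).card := by
      apply Finset.card_bij (fun ω _ => ω.1)
      · rintro ⟨t, u⟩ h
        rw [mem_filter, mem_product] at h
        rw [mem_filter]
        exact ⟨h.1.1, (hb t).mp h.2⟩
      · rintro ⟨t, u⟩ h ⟨t', u'⟩ h' heq
        rw [mem_filter, mem_product, mem_singleton] at h h'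
        simp only at heq
        have h1 := h.1.2
        have h2 := h'.1.2
        simp only at h1 h2
        rw [heq, h1, h2]
      · intro t ht
        rw [mem_filter] at ht
        refine ⟨(t, 0), ?_, rfl⟩
        rw [mem_filter, mem_product, mem_singleton]
        exact ⟨⟨ht.1, rfl⟩, (hb t).mpr ht.2⟩
    rw [hcard]
    exact count_progression k b _ hdpos
  have hsum : ∑ s ∈ (PR x).powerset.filter (fun s => ∏ q ∈ s, q ≤ D),
      |((((Icc 1 k) ×ˢ ({0} : Finset ℕ)).filter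
        (fun ω : ℕ × ℕ => ∀ q ∈ s, (q : ℤ) ∣ (ω.1 : ℤ) - a q)).card : ℝ) -
        (k : ℝ) / ((∏ q ∈ s, q : ℕ) : ℝ)| ≤ D := by
    refine (Finset.sum_le_sum hterm).trans ?_
    have h1 := BL.sum_prod_le (PR x) (fun q hq => (mem_PR.mp hq).2) D (fun _ => 1)
      (fun _ => zero_le_one)
    refine h1.trans ?_
    rw [Finset.sum_const, nsmul_eq_mul, mul_one]
    have h2 : ((Icc 1 D).filter Squarefree).card ≤ D := by
      refine (Finset.card_filter_le _ _).trans ?_
      rw [Nat.card_Icc]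
      omega
    exact_mod_cast h2
  have hp := hprod E hE1 (PR x) hQ
  have hEr : (0 : ℝ) < E := by exact_mod_cast hE1
  have h1 : (1 / 2) * (k : ℝ) * (c / E) ≤ (E + 2) * D := by
    have h2 : (1 / 2) * (k : ℝ) * (c / E) ≤ (1 / 2) * (k : ℝ) * ∏ q ∈ PR x, (1 - 1 / (q : ℝ)) :=
      mul_le_mul_of_nonneg_left hp (by positivity)
    have h3 := mul_le_mul_of_nonneg_left hsum (by positivity : (0 : ℝ) ≤ (E : ℝ) + 2)
    linarith
  have hDx : (D : ℝ) ≤ (x : ℝ) ^ (2 * A) := by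
    have h2 : D ≤ x ^ (2 * A) := by
      rw [hD]
      calc 2 ^ (A * (E + 1)) = (2 ^ E * 2) ^ A := by rw [← pow_succ, ← pow_mul, mul_comm]
        _ ≤ (x * x) ^ A := by
            apply Nat.pow_le_pow_left
            apply Nat.mul_le_mul _ hx2
            rw [hE]
            exact Nat.pow_log_le_self 2 (by omega)
        _ = x ^ (2 * A) := by rw [← pow_two, ← pow_mul]
    exact_mod_cast h2
  have hEx' : (E : ℝ) + 1 ≤ x := by exact_mod_cast hEx
  have hfin : (k : ℝ) ≤ (x : ℝ) ^ (2 * A + 4) := by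
    have h2 : (k : ℝ) ≤ (2 / c) * E * ((E + 2) * D) := by
      have h3 : (k : ℝ) = (2 / c) * E * ((1 / 2) * (k : ℝ) * (c / E)) := by
        field_simp
      rw [h3]
      exact mul_le_mul_of_nonneg_left h1 (by positivity)
    have h4 : 2 / c ≤ (x : ℝ) := hx₁.trans (by exact_mod_cast hxx₁)
    calc (k : ℝ) ≤ (2 / c) * E * ((E + 2) * D) := h2
      _ ≤ x * x * ((x * x) * (x : ℝ) ^ (2 * A)) := by
          apply mul_le_mul (mul_le_mul h4 (by linarith) hEr.le (by positivity))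
          · apply mul_le_mul _ hDx (by positivity) (by positivity)
            nlinarith
          · positivity
          · positivity
      _ = (x : ℝ) ^ (2 * A + 4) := by ring
  exact_mod_cast hfin

/-- capacity bound for polynomial lengths -/
theorem capacityA (A : ℕ) (hA : 2 ≤ A) : ∃ C : ℝ, 0 < C ∧ CapacityA A C := by
  classical
  obtain ⟨C, hC, hcap⟩ := capacity
  refine ⟨2 * A * C, by positivity, ?_⟩
  intro x k p Dx a hx2 hpD hD hsum h2x hkA
  obtain ⟨hp, hpx⟩ := hD p hpD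
  have hp0 : (0 : ℝ) < p := by exact_mod_cast hp.pos
  have hpxr : (p : ℝ) ≤ x := by exact_mod_cast hpx
  have hx0 : (0 : ℝ) < x := by exact_mod_cast (by omega : 0 < x)
  have hk0 : (0 : ℝ) < k := by exact_mod_cast (by omega : 0 < k)
  have hAr : (2 : ℝ) ≤ A := by exact_mod_cast hA
  have hkp : (2 : ℝ) ≤ (k : ℝ) / p := by
    rw [le_div_iff₀ hp0]
    have h1 : (2 : ℝ) * x ≤ k := by exact_mod_cast h2x
    nlinarith
  have hlkp : 0 < Real.log ((k : ℝ) / p) := Real.log_pos (by linarith)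
  rcases le_or_gt k (x ^ 2) with hk | hk
  · have h1 := hcap x k p Dx a hpD hD hsum h2x hk
    refine h1.trans ?_
    apply div_le_div_of_nonneg_right _ hlkp.le
    apply mul_le_mul_of_nonneg_right _ (by positivity)
    nlinarith
  · -- blocks of length x ^ 2
    obtain ⟨J, hJ⟩ : ∃ J, J = k / x ^ 2 + 1 := ⟨_, rfl⟩
    have hx2pos : 0 < x ^ 2 := by positivity
    have hlx : 0 < Real.log x := Real.log_pos (by exact_mod_cast (by omega : 1 < x))
    have hsub : UP x k Dx a p ⊆ (range J).biUnion (fun j =>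
        (UP x (x ^ 2) Dx (fun q => a q - (j * x ^ 2 : ℕ)) p).image (fun t => t + j * x ^ 2)) := by
      intro t ht
      unfold UP at ht
      rw [mem_filter, mem_Icc] at ht
      obtain ⟨⟨ht1, htk⟩, hd, hq⟩ := ht
      rw [mem_biUnion]
      obtain ⟨j, hj⟩ : ∃ j, j = (t - 1) / x ^ 2 := ⟨_, rfl⟩
      have h1 := Nat.div_add_mod (t - 1) (x ^ 2)
      have h2 := Nat.mod_lt (t - 1) hx2pos
      rw [← hj] at h1
      obtain ⟨u, hu⟩ : ∃ u, u = (t - 1) % x ^ 2 := ⟨_, rfl⟩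
      rw [← hu] at h1 h2
      have h3 : t = (u + 1) + j * x ^ 2 := by
        rw [mul_comm] at h1
        omega
      refine ⟨j, ?_, ?_⟩
      · rw [mem_range, hJ, Nat.lt_succ_iff, hj]
        exact Nat.div_le_div_right (by omega)
      · rw [mem_image]
        refine ⟨u + 1, ?_, h3.symm⟩
        unfold UP
        rw [mem_filter, mem_Icc]
        refine ⟨⟨by omega, by omega⟩, ?_, ?_⟩
        · rw [h3] at hd
          push_cast at hd ⊢
          have e : ((u : ℤ) + 1 - (a p - j * x ^ 2)) = (u + 1 + j * x ^ 2 - a p) := by ring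
          rw [e]
          exact hd
        · intro q hq'
          have h4 := hq q hq'
          rw [h3] at h4
          push_cast at h4 ⊢
          have e : ((u : ℤ) + 1 - (a q - j * x ^ 2)) = (u + 1 + j * x ^ 2 - a q) := by ring
          rw [e]
          exact h4
    have h2x2 : 2 * x ≤ x ^ 2 := by nlinarith
    have hlp : Real.log x ≤ Real.log (((x ^ 2 : ℕ) : ℝ) / p) := by
      apply Real.log_le_log hx0
      rw [le_div_iff₀ hp0]
      push_cast
      nlinarith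
    have hblock : ∀ j ∈ range J, (((UP x (x ^ 2) Dx (fun q => a q - (j * x ^ 2 : ℕ)) p).image
        (fun t => t + j * x ^ 2)).card : ℝ) ≤ C * (((x ^ 2 : ℕ) : ℝ) / p) / Real.log x := by
      intro j _
      have h1 := hcap x (x ^ 2) p Dx (fun q => a q - (j * x ^ 2 : ℕ)) hpD hD hsum h2x2 le_rfl
      have h2 : (((UP x (x ^ 2) Dx (fun q => a q - (j * x ^ 2 : ℕ)) p).image
        (fun t => t + j * x ^ 2)).card : ℝ) ≤
        ((UP x (x ^ 2) Dx (fun q => a q - (j * x ^ 2 : ℕ)) p).card : ℝ) := by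
        exact_mod_cast Finset.card_image_le
      refine h2.trans (h1.trans ?_)
      exact div_le_div_of_nonneg_left (by positivity) hlx hlp
    have hJr : (J : ℝ) ≤ 2 * ((k : ℝ) / ((x ^ 2 : ℕ) : ℝ)) := by
      rw [hJ]
      have hx2r : (0 : ℝ) < ((x ^ 2 : ℕ) : ℝ) := by exact_mod_cast hx2pos
      have h1 : ((k / x ^ 2 : ℕ) : ℝ) ≤ (k : ℝ) / ((x ^ 2 : ℕ) : ℝ) := Nat.cast_div_le
      have h2 : (1 : ℝ) ≤ (k : ℝ) / ((x ^ 2 : ℕ) : ℝ) := by
        rw [le_div_iff₀ hx2r, one_mul]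
        exact_mod_cast hk.le
      push_cast at h1 h2 ⊢
      linarith
    have hcard : ((UP x k Dx a p).card : ℝ) ≤ J * (C * (((x ^ 2 : ℕ) : ℝ) / p) / Real.log x) := by
      have h1 : (UP x k Dx a p).card ≤ ∑ j ∈ range J,
          ((UP x (x ^ 2) Dx (fun q => a q - (j * x ^ 2 : ℕ)) p).image
            (fun t => t + j * x ^ 2)).card :=
        (Finset.card_le_card hsub).trans Finset.card_biUnion_le
      have h2 : ((UP x k Dx a p).card : ℝ) ≤ ∑ j ∈ range J,
          (((UP x (x ^ 2) Dx (fun q => a q - (j * x ^ 2 : ℕ)) p).image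
            (fun t => t + j * x ^ 2)).card : ℝ) := by exact_mod_cast h1
      refine h2.trans ((Finset.sum_le_sum hblock).trans ?_)
      rw [Finset.sum_const, card_range, nsmul_eq_mul]
    have hlk : Real.log ((k : ℝ) / p) ≤ A * Real.log x := by
      have h1 : (k : ℝ) / p ≤ (x : ℝ) ^ A := by
        refine (div_le_self hk0.le (by exact_mod_cast hp.one_lt.le)).trans ?_
        exact_mod_cast hkA
      have h2 := Real.log_le_log (by positivity) h1
      rwa [Real.log_pow] at h2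
    have hx2r : (0 : ℝ) < ((x ^ 2 : ℕ) : ℝ) := by exact_mod_cast hx2pos
    calc ((UP x k Dx a p).card : ℝ) ≤ J * (C * (((x ^ 2 : ℕ) : ℝ) / p) / Real.log x) := hcard
      _ ≤ (2 * ((k : ℝ) / ((x ^ 2 : ℕ) : ℝ))) * (C * (((x ^ 2 : ℕ) : ℝ) / p) / Real.log x) :=
          mul_le_mul_of_nonneg_right hJr (by positivity)
      _ = (2 * C * ((k : ℝ) / p)) * (1 / Real.log x) := by
          field_simp
      _ ≤ (2 * C * ((k : ℝ) / p)) * (A / Real.log ((k : ℝ) / p)) := by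
          apply mul_le_mul_of_nonneg_left _ (by positivity)
          rw [div_le_div_iff₀ hlx hlkp]
          linarith
      _ = 2 * A * C * ((k : ℝ) / p) / Real.log ((k : ℝ) / p) := by ring

end Pool.Agent.Helper6.ER3
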