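import Mathlib
import Pool.Agent.Helper6.SW.DefsZ
import Pool.Agent.Helper97.SW.Psl

/-! Primes of a window of any width which avoid one nonzero class modulo each small prime. -/

namespace Pool.Agent.Helper6.ER3

open Finset Pool.Agent.Helper6.SW Pool.Agent.Helper16.UB Pool.Agent.Helper97.SW

/-- primes in a window of width `V` which avoid one nonzero class modulo each small prime -/
def StPSLAll : Prop := ∃ c₀ : ℝ, 0 < c₀ ∧ ∀ V : ℝ, 0 < V → ∃ c X₀ : ℝ, 0 < c ∧ ∀ X ≥ X₀,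
  ∀ (y : ℕ) (S : Finset ℕ) (r : ℕ → ℤ), (y : ℝ) ≤ X ^ c₀ →
  (∀ q ∈ S, q.Prime ∧ 3 ≤ q ∧ q ≤ y ∧ ¬ (q : ℤ) ∣ r q) →
    c * (X / Real.log X) * ∏ q ∈ S, (1 - 1 / (q : ℝ)) ≤
      (((PX V X).filter (fun p : ℕ => Real.exp (-V) * X < p ∧
        ∀ q ∈ S, ¬ (q : ℤ) ∣ (p : ℤ) - r q)).card : ℝ)

theorem pslAll_of (hBV : StBV) (hMass : StMassAll) (hMin : StMinorant) : StPSLAll := by
  classical
  obtain ⟨A, hA, hmin⟩ := hMin
  have hA0 : (0 : ℝ) < A := by exact_mod_cast hA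
  have hA1 : (1 : ℝ) ≤ A := by exact_mod_cast hA
  refine ⟨1 / (64 * A), by positivity, fun V hV => ?_⟩
  obtain ⟨k, X₁, hBV⟩ := hBV V 3 hV
  obtain ⟨c, C, X₂, hc, hC, hM⟩ := hMass V k hV
  obtain ⟨C₃, hC₃, hP⟩ := prod_PL_le
  refine ⟨c / (8 * C),
    max (max X₁ X₂) (max ((2 : ℝ) ^ (64 * A)) (max (Real.exp 2) (Real.exp (16 * C₃ / c)))),
    by positivity, fun X hX y S r hy hS => ?_⟩
  have hX1 : X₁ ≤ X := le_trans (le_trans (le_max_left _ _) (le_max_left _ _)) hX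
  have hX2 : X₂ ≤ X := le_trans (le_trans (le_max_right _ _) (le_max_left _ _)) hX
  have hX3 : (2 : ℝ) ^ (64 * A) ≤ X := le_trans (le_trans (le_max_left _ _) (le_max_right _ _)) hX
  have hX4 : Real.exp 2 ≤ X := le_trans (le_trans (le_trans (le_max_left _ _) (le_max_right _ _))
    (le_max_right _ _)) hX
  have hX5 : Real.exp (16 * C₃ / c) ≤ X := le_trans (le_trans (le_trans (le_max_right _ _)
    (le_max_right _ _)) (le_max_right _ _)) hX
  have hX0 : 0 < X := (Real.exp_pos 2).trans_le hX4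
  have hXone : 1 ≤ X := le_trans (by have := Real.add_one_le_exp (2 : ℝ); linarith) hX4
  obtain ⟨L, hL⟩ : ∃ L, L = Real.log X := ⟨_, rfl⟩
  have hL2 : 2 ≤ L := by
    rw [hL, Real.le_log_iff_exp_le hX0]; exact hX4
  have hL5 : 16 * C₃ / c ≤ L := by
    rw [hL, Real.le_log_iff_exp_le hX0]; exact hX5
  have hL0 : 0 < L := by linarith
  obtain ⟨hm1, hm2⟩ := hM X hX2
  rw [← hL] at hm1 hm2
  -- sizes
  set E := Nat.log 2 y with hE
  have hyc : (1 : ℝ) ≤ X ^ (1 / (64 * (A : ℝ))) := Real.one_le_rpow hXone (by positivity)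
  have h2E : (2 : ℝ) ^ E ≤ X ^ (1 / (64 * (A : ℝ))) := by
    by_cases h0 : y = 0
    · rw [hE, h0]; simpa using hyc
    · have h1 : 2 ^ E ≤ y := Nat.pow_log_le_self 2 h0
      have h2 : (2 : ℝ) ^ E ≤ y := by exact_mod_cast h1
      exact h2.trans hy
  have hEL : (E : ℝ) + 2 ≤ 2 * L := by
    have h1 := Real.log_le_log (by positivity) h2E
    rw [Real.log_pow, Real.log_rpow hX0, ← hL] at h1
    have h2 : (1 : ℝ) / 2 ≤ Real.log 2 := by
      have := Real.log_two_gt_d9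
      linarith
    have h3 : 1 / (64 * (A : ℝ)) * L ≤ 1 / 64 * L := by
      apply mul_le_mul_of_nonneg_right _ hL0.le
      apply one_div_le_one_div_of_le (by norm_num)
      linarith
    have h4 : (E : ℝ) * (1 / 2) ≤ E * Real.log 2 := mul_le_mul_of_nonneg_left h2 (by positivity)
    linarith
  have hD : (2 : ℝ) ^ (A * (E + 1)) ≤ X ^ (1 / 32 : ℝ) := by
    have h1 : (2 : ℝ) ^ (A * (E + 1)) = (2 : ℝ) ^ A * ((2 : ℝ) ^ E) ^ A := by
      rw [← pow_mul, ← pow_add]
      congr 1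
      ring
    have h2 : ((2 : ℝ) ^ E) ^ A ≤ X ^ (1 / 64 : ℝ) := by
      calc ((2 : ℝ) ^ E) ^ A ≤ (X ^ (1 / (64 * (A : ℝ)))) ^ A :=
            pow_le_pow_left₀ (by positivity) h2E A
        _ = X ^ (1 / 64 : ℝ) := by
            rw [← Real.rpow_natCast, ← Real.rpow_mul hX0.le]
            congr 1
            field_simp
    have h3 : (2 : ℝ) ^ A ≤ X ^ (1 / 64 : ℝ) := by
      have h4 : ((2 : ℝ) ^ (64 * A)) ^ (1 / 64 : ℝ) ≤ X ^ (1 / 64 : ℝ) :=
        Real.rpow_le_rpow (by positivity) hX3 (by norm_num)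
      have h5 : ((2 : ℝ) ^ (64 * A)) ^ (1 / 64 : ℝ) = (2 : ℝ) ^ A := by
        rw [← Real.rpow_natCast, ← Real.rpow_mul (by norm_num), ← Real.rpow_natCast]
        congr 1
        push_cast
        ring
      rw [h5] at h4
      exact h4
    rw [h1]
    calc (2 : ℝ) ^ A * ((2 : ℝ) ^ E) ^ A ≤ X ^ (1 / 64 : ℝ) * X ^ (1 / 64 : ℝ) :=
          mul_le_mul h3 h2 (by positivity) (by positivity)
      _ = X ^ (1 / 32 : ℝ) := by
          rw [← Real.rpow_add hX0]
          norm_num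
  -- the minorant
  have hSp : ∀ q ∈ S, q.Prime := fun q hq => (hS q hq).1
  have hS3 : ∀ q ∈ S, (3 : ℝ) ≤ q := fun q hq => by exact_mod_cast (hS q hq).2.1
  obtain ⟨l, hl1, hl2, hl3, hl4⟩ := hmin E S (fun q => 1 / ((q : ℝ) - 1))
    (fun q hq => ⟨hSp q hq, Nat.log_mono_right (hS q hq).2.2.1⟩)
    (fun q hq => by
      have h3 := hS3 q hq
      have h4 : (0 : ℝ) < (q : ℝ) - 1 := by linarith
      refine ⟨by positivity, ?_, ?_⟩
      · apply one_div_le_one_div_of_le (by norm_num)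
        linarith
      · rw [div_le_div_iff₀ h4 (by linarith)]
        linarith)
  have hw : ∀ p ∈ PX V X, 0 ≤ Real.log p * om V k X p := fun p _ =>
    mul_nonneg (Real.log_natCast_nonneg p) (om_nonneg V k X p)
  have hMnn : 0 ≤ Mass V k X := le_trans (by positivity) hm1
  have hsieve := sieve_lower (V := V) (X := X) (k := k) S (fun q hq => ⟨hSp q hq, (hS q hq).2.1⟩)
    r (fun q hq => (hS q hq).2.2.2) l ((E : ℝ) + 2) (L ^ k / L ^ 3) hl1 hl3 hl4 hw hMnn
    (by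
      intro b hb
      rw [hL]
      refine hBV X hX1 b _ ?_
      intro d hd
      obtain ⟨s, hs, rfl⟩ := mem_image.1 hd
      rw [mem_filter, mem_powerset] at hs
      refine ⟨squarefree_prod fun q hq => hSp q (hs.1 hq), ?_, hb s hs.1⟩
      have h1 := hl2 s hs.1 hs.2
      have h2 : (((∏ q ∈ s, q : ℕ)) : ℝ) ≤ (2 : ℝ) ^ (A * (E + 1)) := by exact_mod_cast h1
      exact h2.trans hD)
  -- the products
  obtain ⟨P, hPd⟩ : ∃ P, P = ∏ q ∈ S, (1 - 1 / (q : ℝ)) := ⟨_, rfl⟩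
  have hratio := prod_ratio S fun q hq => (hS q hq).2.1
  rw [← hPd] at hratio ⊢
  have hPpos : 0 < P := by
    rw [hPd]
    refine prod_pos fun q hq => ?_
    have h3 := hS3 q hq
    have : 1 / (q : ℝ) < 1 := by rw [div_lt_one (by linarith)]; linarith
    linarith
  have hPlow : 1 ≤ P * (C₃ * L) := by
    set Y := max y 2 with hY
    have h1 := hP Y (le_max_right _ _)
    have hYX : (Y : ℝ) ≤ X := by
      rw [hY]
      push_cast
      refine max_le ?_ ?_
      · refine hy.trans ?_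
        calc X ^ (1 / (64 * (A : ℝ))) ≤ X ^ (1 : ℝ) := by
              apply Real.rpow_le_rpow_of_exponent_le hXone
              rw [div_le_one (by positivity)]
              linarith
          _ = X := Real.rpow_one X
      · have := Real.add_one_le_exp (2 : ℝ)
        linarith
    have hY2 : (2 : ℝ) ≤ Y := by exact_mod_cast le_max_right y 2
    have h2 : Real.log Y ≤ L := by
      rw [hL]
      exact Real.log_le_log (by linarith) hYX
    have hsub : S ⊆ PL Y := by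
      intro q hq
      rw [mem_PL]
      exact ⟨(hS q hq).2.2.1.trans (le_max_left _ _), hSp q hq⟩
    have h3 : ∏ q ∈ S, (1 - 1 / (q : ℝ))⁻¹ ≤ ∏ q ∈ PL Y, (1 - 1 / (q : ℝ))⁻¹ := by
      have hone : ∀ q : ℕ, q.Prime → 1 ≤ (1 - 1 / (q : ℝ))⁻¹ := by
        intro q hq
        have hp1 : (1 : ℝ) < q := by exact_mod_cast hq.one_lt
        have h5 : 1 / (q : ℝ) < 1 := by rw [div_lt_one (by linarith)]; exact hp1
        have h6 : 0 < 1 / (q : ℝ) := by positivity
        rw [one_le_inv₀ (by linarith)]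
        linarith
      rw [← prod_sdiff hsub]
      have h5 : 1 ≤ ∏ q ∈ PL Y \ S, (1 - 1 / (q : ℝ))⁻¹ := by
        have h6 : ∏ q ∈ PL Y \ S, (1 : ℝ) ≤ ∏ q ∈ PL Y \ S, (1 - 1 / (q : ℝ))⁻¹ :=
          prod_le_prod (fun _ _ => zero_le_one) fun q hq =>
            hone q (mem_PL.1 (mem_sdiff.1 hq).1).2
        simpa using h6
      have h7 : 0 ≤ ∏ q ∈ S, (1 - 1 / (q : ℝ))⁻¹ :=
        prod_nonneg fun q hq => le_trans zero_le_one (hone q (hSp q hq))
      nlinarith
    have h4 : ∏ q ∈ S, (1 - 1 / (q : ℝ))⁻¹ = P⁻¹ := by rw [hPd, prod_inv_distrib]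
    rw [h4] at h3
    have h5 : P⁻¹ ≤ C₃ * L := h3.trans (h1.trans (mul_le_mul_of_nonneg_left h2 hC₃.le))
    have h6 : P * P⁻¹ = 1 := mul_inv_cancel₀ hPpos.ne'
    calc (1 : ℝ) = P * P⁻¹ := h6.symm
      _ ≤ P * (C₃ * L) := mul_le_mul_of_nonneg_left h5 hPpos.le
  -- the lower bound for the weighted sum
  have hlow : c / 8 * L ^ k * P ≤
      ∑ p ∈ (PX V X).filter (fun p : ℕ => ∀ q ∈ S, ¬ (q : ℤ) ∣ (p : ℤ) - r q),
        Real.log p * om V k X p := by
    refine le_trans ?_ hsieve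
    have hLk : 0 < L ^ k := by positivity
    have h1 : c * L ^ k * ((1 / 2) * ((1 / 2) * P)) ≤
        Mass V k X * ((1 / 2) * ∏ q ∈ S, (1 - 1 / ((q : ℝ) - 1))) := by
      refine mul_le_mul hm1 ?_ (by positivity) hMnn
      linarith
    have h2 : ((E : ℝ) + 2) * (L ^ k / L ^ 3) ≤ c / 8 * L ^ k * P := by
      have h3 : ((E : ℝ) + 2) * (L ^ k / L ^ 3) ≤ 2 * L * (L ^ k / L ^ 3) :=
        mul_le_mul_of_nonneg_right hEL (by positivity)
      have h4 : 2 * L * (L ^ k / L ^ 3) = 2 * L ^ k / L ^ 2 := by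
        field_simp
      rw [h4] at h3
      refine h3.trans ?_
      rw [div_le_iff₀ (by positivity)]
      have h5 : 16 * C₃ ≤ c * L := by
        rw [div_le_iff₀ hc] at hL5
        linarith
      have h6 : 16 ≤ c * P * L ^ 2 := by
        have h7 : 16 * C₃ * (P * L) ≤ c * L * (P * L) :=
          mul_le_mul_of_nonneg_right h5 (by positivity)
        have h8 : 16 ≤ 16 * C₃ * (P * L) := by nlinarith
        nlinarith
      nlinarith
    nlinarith
  -- the upper bound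
  have hup : ∑ p ∈ (PX V X).filter (fun p : ℕ => ∀ q ∈ S, ¬ (q : ℤ) ∣ (p : ℤ) - r q),
        Real.log p * om V k X p ≤
      ∑ p ∈ (PX V X).filter (fun p : ℕ => Real.exp (-V) * X < p ∧
        ∀ q ∈ S, ¬ (q : ℤ) ∣ (p : ℤ) - r q), C * L ^ (k + 1) / X := by
    rw [sum_filter, sum_filter]
    refine sum_le_sum fun p hp => ?_
    have hCnn : 0 ≤ C * L ^ (k + 1) / X := by positivity
    by_cases h1 : ∀ q ∈ S, ¬ (q : ℤ) ∣ (p : ℤ) - r q
    · rw [if_pos h1]
      by_cases h2 : om V k X p = 0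
      · rw [h2, mul_zero]
        split_ifs
        · exact hCnn
        · exact le_refl _
      · obtain ⟨h3, h4⟩ := hm2 p hp h2
        rw [if_pos ⟨h3, h1⟩]
        exact h4
    · rw [if_neg h1, if_neg fun h => h1 h.2]
  rw [sum_const, nsmul_eq_mul] at hup
  have h1 := hlow.trans hup
  rw [← hL]
  set n : ℝ := (((PX V X).filter (fun p : ℕ => Real.exp (-V) * X < p ∧
        ∀ q ∈ S, ¬ (q : ℤ) ∣ (p : ℤ) - r q)).card : ℝ) with hn
  have h2 : c / 8 * L ^ k * P * X ≤ n * (C * L ^ (k + 1)) := by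
    have h3 := mul_le_mul_of_nonneg_right h1 hX0.le
    have h4 : n * (C * L ^ (k + 1) / X) * X = n * (C * L ^ (k + 1)) := by
      field_simp
    rw [h4] at h3
    exact h3
  have h3 : c / (8 * C) * (X / L) * P = c / 8 * L ^ k * P * X / (C * L ^ (k + 1)) := by
    rw [pow_succ]
    field_simp
  rw [h3, div_le_iff₀ (by positivity)]
  exact h2

end Pool.Agent.Helper6.ER3
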