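import Mathlib
import Pool.Agent.Helper6.ER3.Poly
import Pool.Agent.Helper6.ER3.Psl
import Pool.Agent.Helper6.ER2.Parts

/-! The structure theorem for all runs and the limit of the Erdos-Rankin method, final form. -/

namespace Pool.Agent.Helper6.ER3

open Finset Filter Pool.Agent.Helper6.ER Pool.Agent.Helper6.ER2 Pool.Agent.Helper6.SW

theorem core3_of (hPSL : StPSLAll) (hNs : StNsum) : ∃ c₀ : ℝ, 0 < c₀ ∧ ∀ V : ℝ, 0 < V →
    ∀ A : ℕ, 2 ≤ A → ∃ K₀ c₁ : ℝ, 0 < K₀ ∧ 0 < c₁ ∧ StCore3 V A K₀ c₀ c₁ := by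
  obtain ⟨c₀, hc₀, hPSL⟩ := hPSL
  obtain ⟨cN, hcN, hNs⟩ := hNs
  obtain ⟨cT, hcT, hT⟩ := exists_tail
  refine ⟨min c₀ 1, lt_min hc₀ one_pos, ?_⟩
  intro V hV A hA
  obtain ⟨c, X₀, hc, hpsl⟩ := hPSL V hV
  obtain ⟨Cc, hCc, hcap⟩ := capacityA A hA
  have hA0 : (0 : ℝ) < A := by exact_mod_cast (by omega : 0 < A)
  refine ⟨16 * Real.exp (4 * V), min (1 / (A : ℝ)) (c * cN * cT / (2 * A * Real.exp V * Cc)),
    by positivity, lt_min (by positivity) (by positivity), ?_⟩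
  obtain ⟨x₁, hx₁⟩ := exists_nat_ge (max X₀ 1)
  refine ⟨max x₁ 3, ?_⟩
  intro x hx y k a hy2 hyx hk1 hk2 hcov
  have hx1 : x₁ ≤ x := (le_max_left _ _).trans hx
  have hx3 : 3 ≤ x := (le_max_right _ _).trans hx
  have hxr : max X₀ 1 ≤ x := hx₁.trans (by exact_mod_cast hx1)
  have hXx : X₀ ≤ x := (le_max_left _ _).trans hxr
  have hx1r : (1 : ℝ) ≤ x := (le_max_right _ _).trans hxr
  apply core3_step (c₀ := min c₀ 1) hA hV hc hcN hcT hCc _ hNs hT hcap (lt_min hc₀ one_pos)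
    (min_le_right _ _) rfl hx3 (max_le hXx hx1r) hy2 hyx hk1 hk2 hcov
  intro X hX y S r hy hS
  have hX1 : (1 : ℝ) ≤ X := (le_max_right _ _).trans hX
  exact hpsl X ((le_max_left _ _).trans hX) y S r
    (hy.trans (Real.rpow_le_rpow_of_exponent_le hX1 (min_le_left _ _))) hS

/-- the primes `y < p ≤ x` which do not divide the integer `m` -/
def MissZ (x y : ℕ) (m : ℤ) : Finset ℕ :=
  (range (x + 1)).filter (fun p => p.Prime ∧ y < p ∧ ¬ (p : ℤ) ∣ m)

lemma mem_MissZ {x y p : ℕ} {m : ℤ} :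
    p ∈ MissZ x y m ↔ p ≤ x ∧ p.Prime ∧ y < p ∧ ¬ (p : ℤ) ∣ m := by
  unfold MissZ
  rw [mem_filter, mem_range, Nat.lt_succ_iff]

lemma EX_eqZ {x y : ℕ} {m b : ℤ} (hb : ∀ p : ℕ, (p : ℤ) ∣ b ↔ (p : ℤ) ∣ m) :
    EX x y (fun _ => b) = MissZ x y m := by
  ext p
  rw [mem_EX, mem_MissZ, hb p]
  tauto

/-- from a run and an integer near the run to a one-sided covering of a window -/
lemma window_of_run {x k n : ℕ} {m : ℤ} {B : ℝ} (hB : 1 ≤ B) (hA : InA x k n)
    (hm : |(m : ℝ) - n| ≤ B * k) : ∃ (N : ℕ) (b : ℤ), k ≤ 2 * N + 1 ∧ (N : ℝ) ≤ (B + 1) * k ∧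
      (∀ p : ℕ, (p : ℤ) ∣ b ↔ (p : ℤ) ∣ m) ∧
      ∀ t : ℕ, B / (B + 1) * N < t → t ≤ N → ∃ p ∈ PR x, (p : ℤ) ∣ (t : ℤ) - b := by
  obtain ⟨j, hj⟩ : ∃ j : ℤ, m = n + j := ⟨m - n, by ring⟩
  have hmj : (m : ℝ) - n = j := by rw [hj]; push_cast; ring
  rw [hmj] at hm
  have hk0 : (0 : ℝ) ≤ k := Nat.cast_nonneg k
  have hB1 : 0 < B + 1 := by linarith
  -- covering of one integer of the run
  have hcov : ∀ i : ℤ, 1 ≤ i → i ≤ k → ∃ p ∈ PR x, (p : ℤ) ∣ n + i := by
    intro i h1 h2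
    obtain ⟨i', hi'⟩ : ∃ i' : ℕ, i = i' := ⟨i.toNat, by omega⟩
    subst hi'
    obtain ⟨p, hp, hpx, hd⟩ := hA i' (mem_Icc.mpr ⟨by omega, by omega⟩)
    exact ⟨p, mem_PR.mpr ⟨hpx, hp⟩, by exact_mod_cast hd⟩
  have habs := abs_le.mp hm
  rcases le_or_gt j 0 with hj0 | hj0
  · -- the centre lies to the left of the run
    obtain ⟨H, hH⟩ : ∃ H : ℕ, j = -(H : ℤ) := ⟨(-j).toNat, by omega⟩
    have hHr : (H : ℝ) ≤ B * k := by
      have h1 : (j : ℝ) = -(H : ℝ) := by rw [hH]; push_cast; ring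
      rw [h1] at habs
      linarith [habs.1]
    refine ⟨H + k, -m, by omega, ?_, fun p => dvd_neg, ?_⟩
    · push_cast
      linarith
    · intro t ht1 ht2
      have htH : H < t := by
        have h1 : (H : ℝ) ≤ B / (B + 1) * ((H + k : ℕ) : ℝ) := by
          rw [div_mul_eq_mul_div, le_div_iff₀ hB1]
          push_cast
          nlinarith
        exact_mod_cast lt_of_le_of_lt h1 ht1
      obtain ⟨p, hp, hd⟩ := hcov ((t : ℤ) - H) (by omega) (by omega)
      refine ⟨p, hp, ?_⟩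
      have e : (t : ℤ) - -m = n + ((t : ℤ) - H) := by rw [hj, hH]; ring
      rw [e]
      exact hd
  · rcases lt_or_ge (k : ℤ) j with hjk | hjk
    · -- the centre lies to the right of the run
      obtain ⟨N, hN⟩ : ∃ N : ℕ, j = (N : ℤ) + 1 := ⟨(j - 1).toNat, by omega⟩
      have hNr : (N : ℝ) + 1 ≤ B * k := by
        have h1 : (j : ℝ) = (N : ℝ) + 1 := by rw [hN]; push_cast; ring
        rw [h1] at habs
        exact habs.2
      refine ⟨N, m, by omega, by linarith, fun p => Iff.rfl, ?_⟩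
      intro t ht1 ht2
      have htH : (N : ℤ) - k < t := by
        have h1 : (N : ℝ) - k ≤ B / (B + 1) * (N : ℝ) := by
          rw [div_mul_eq_mul_div, le_div_iff₀ hB1]
          nlinarith
        have h2 : (N : ℝ) - k < t := lt_of_le_of_lt h1 ht1
        exact_mod_cast h2
      obtain ⟨p, hp, hd⟩ := hcov (j - t) (by omega) (by omega)
      refine ⟨p, hp, ?_⟩
      have e : (t : ℤ) - m = -(n + (j - t)) := by rw [hj]; ring
      rw [e, dvd_neg]
      exact hd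
    · -- the centre lies in the run
      obtain ⟨i, hi⟩ : ∃ i : ℕ, j = i := ⟨j.toNat, by omega⟩
      have hpos : ∀ (N t : ℕ), B / (B + 1) * (N : ℝ) < t → 1 ≤ t := by
        intro N t h
        have h1 : (0 : ℝ) ≤ B / (B + 1) * (N : ℝ) := by positivity
        have h2 : (0 : ℝ) < t := lt_of_le_of_lt h1 h
        exact_mod_cast h2
      rcases le_or_gt (2 * i) (k + 1) with h | h
      · refine ⟨k - i, -m, by omega, ?_, fun p => dvd_neg, ?_⟩
        · have h1 : ((k - i : ℕ) : ℝ) ≤ k := by exact_mod_cast Nat.sub_le k i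
          nlinarith
        · intro t ht1 ht2
          have ht0 := hpos _ _ ht1
          obtain ⟨p, hp, hd⟩ := hcov ((i : ℤ) + t) (by omega) (by omega)
          refine ⟨p, hp, ?_⟩
          have e : (t : ℤ) - -m = n + ((i : ℤ) + t) := by rw [hj, hi]; ring
          rw [e]
          exact hd
      · refine ⟨i - 1, m, by omega, ?_, fun p => Iff.rfl, ?_⟩
        · have h1 : ((i - 1 : ℕ) : ℝ) ≤ k := by
            have : i - 1 ≤ k := by omega
            exact_mod_cast this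
          nlinarith
        · intro t ht1 ht2
          have ht0 := hpos _ _ ht1
          obtain ⟨p, hp, hd⟩ := hcov ((i : ℤ) - t) (by omega) (by omega)
          refine ⟨p, hp, ?_⟩
          have e : (t : ℤ) - m = -(n + ((i : ℤ) - t)) := by rw [hj, hi]; ring
          rw [e, dvd_neg]
          exact hd

/-- runs have polynomial length -/
lemma run_poly : ∃ A : ℕ, 2 ≤ A ∧ ∃ x₀ : ℕ, ∀ x ≥ x₀, ∀ k n : ℕ, InA x k n → k ≤ x ^ A := by
  obtain ⟨A, hA, x₀, h⟩ := poly_bound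
  refine ⟨A, hA, x₀, ?_⟩
  intro x hx k n hI
  apply h x hx k (fun _ => -(n : ℤ))
  intro t ht
  obtain ⟨p, hp, hpx, hd⟩ := hI t ht
  refine ⟨p, mem_PR.mpr ⟨hpx, hp⟩, ?_⟩
  have e : (t : ℤ) - -(n : ℤ) = ((n + t : ℕ) : ℤ) := by push_cast; ring
  rw [e]
  exact_mod_cast hd

/-- the structure theorem for all runs, for given constants -/
def StA3 (B K₀ c₀ c₁ : ℝ) : Prop := ∃ x₀ : ℕ, ∀ x ≥ x₀, ∀ (y k n : ℕ) (m : ℤ),
    2 ≤ y → (y : ℝ) ≤ (x : ℝ) ^ c₀ → K₀ * x ≤ k → InA x k n → |(m : ℝ) - n| ≤ B * k →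
    c₁ * min 1 (Real.log ((k : ℝ) / x) / Real.log y) ≤
      ∑ p ∈ MissZ x y m, (1 / (p : ℝ)) * (Real.log x / Real.log ((k : ℝ) / p))

theorem partA3 {c₀ : ℝ} (h : ∀ V : ℝ, 0 < V → ∀ A : ℕ, 2 ≤ A → ∃ K₀ c₁ : ℝ, 0 < K₀ ∧ 0 < c₁ ∧
    StCore3 V A K₀ c₀ c₁) (B : ℝ) : ∃ K₀ c₁ : ℝ, 1 ≤ K₀ ∧ 0 < c₁ ∧ StA3 B K₀ c₀ c₁ := by
  obtain ⟨B', hB'⟩ : ∃ B', B' = max B 1 := ⟨_, rfl⟩
  have hB1 : 1 ≤ B' := by rw [hB']; exact le_max_right _ _
  have hBB : B ≤ B' := by rw [hB']; exact le_max_left _ _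
  have hB0 : 0 < B' := by linarith
  obtain ⟨V, hV⟩ : ∃ V, V = (1 / 2) * Real.log ((B' + 1) / B') := ⟨_, rfl⟩
  have hV0 : 0 < V := by
    rw [hV]
    apply mul_pos (by norm_num)
    apply Real.log_pos
    rw [lt_div_iff₀ hB0]
    linarith
  have hVe : Real.exp (-(2 * V)) = B' / (B' + 1) := by
    have e : -(2 * V) = -Real.log ((B' + 1) / B') := by rw [hV]; ring
    rw [e, Real.exp_neg, Real.exp_log (by positivity), inv_div]
  obtain ⟨A₀, hA₀, x₁, hpoly⟩ := run_poly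
  obtain ⟨K₀, c₁, hK₀, hc₁, x₂, hcore⟩ := h V hV0 (A₀ + 1) (by omega)
  refine ⟨3 * K₀ + 9, c₁ / 4, by linarith, by linarith, ?_⟩
  obtain ⟨x₃, hx₃⟩ := exists_nat_ge (B' + 1)
  refine ⟨max (max x₁ x₂) (max x₃ 2), ?_⟩
  intro x hx y k n m hy2 hyx hk1 hA hm
  have hxx₁ : x₁ ≤ x := le_trans (le_trans (le_max_left _ _) (le_max_left _ _)) hx
  have hxx₂ : x₂ ≤ x := le_trans (le_trans (le_max_right _ _) (le_max_left _ _)) hx
  have hxx₃ : x₃ ≤ x := le_trans (le_trans (le_max_left _ _) (le_max_right _ _)) hx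
  have hx2 : 2 ≤ x := le_trans (le_trans (le_max_right _ _) (le_max_right _ _)) hx
  have hkA : k ≤ x ^ A₀ := hpoly x hxx₁ k n hA
  obtain ⟨L, hLdef⟩ : ∃ L, L = Real.log x := ⟨_, rfl⟩
  rw [← hLdef]
  have hx0 : (0 : ℝ) < x := by exact_mod_cast (by omega : 0 < x)
  have hL0 : 0 < L := by
    rw [hLdef]
    exact Real.log_pos (by exact_mod_cast (by omega : 1 < x))
  have hkr0 : (0 : ℝ) ≤ k := Nat.cast_nonneg k
  obtain ⟨k', b, hkk, hk'k, hb, hcov⟩ := window_of_run hB1 hA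
    (hm.trans (mul_le_mul_of_nonneg_right hBB hkr0))
  have hk9r : (9 : ℝ) * x ≤ k := by nlinarith
  have hk9 : 9 * x ≤ k := by exact_mod_cast hk9r
  have hk3 : k ≤ 3 * k' := by omega
  have hk3r : (k : ℝ) / 3 ≤ k' := by
    rw [div_le_iff₀ (by norm_num)]
    have : (k : ℝ) ≤ 3 * k' := by exact_mod_cast hk3
    linarith
  have hk0 : (0 : ℝ) < k := by
    have : 0 < k := by omega
    exact_mod_cast this
  have hk1' : K₀ * x ≤ k' := by
    refine le_trans ?_ hk3r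
    rw [le_div_iff₀ (by norm_num)]
    nlinarith
  have hk'A : k' ≤ x ^ (A₀ + 1) := by
    have h1 : (k' : ℝ) ≤ (x : ℝ) ^ (A₀ + 1) := by
      calc (k' : ℝ) ≤ (B' + 1) * k := hk'k
        _ ≤ x * (x : ℝ) ^ A₀ := by
            apply mul_le_mul (hx₃.trans (by exact_mod_cast hxx₃)) _ hkr0 hx0.le
            exact_mod_cast hkA
        _ = (x : ℝ) ^ (A₀ + 1) := by ring
    exact_mod_cast h1
  have hmain := hcore x hxx₂ y k' (fun _ => b) hy2 hyx hk1' hk'A (by
    intro t ht1 ht2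
    rw [hVe] at ht1
    exact hcov t ht1 ht2)
  rw [EX_eqZ hb, ← hLdef] at hmain
  have hlogy : 0 < Real.log y := Real.log_pos (by exact_mod_cast (by omega : 1 < y))
  have hhalf : ∀ u : ℝ, 9 ≤ u → Real.log u / 2 ≤ Real.log (u / 3) := by
    intro u hu
    have h1 : Real.log 9 ≤ Real.log u := Real.log_le_log (by norm_num) hu
    have h2 : Real.log 9 = 2 * Real.log 3 := by
      rw [show (9 : ℝ) = 3 ^ 2 by norm_num, Real.log_pow]
      push_cast
      ring
    rw [Real.log_div (by linarith) (by norm_num)]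
    linarith
  have hlogK : Real.log ((k : ℝ) / x) / 2 ≤ Real.log ((k' : ℝ) / x) := by
    have h1 : (9 : ℝ) ≤ (k : ℝ) / x := by
      rw [le_div_iff₀ hx0]
      exact hk9r
    refine (hhalf _ h1).trans ?_
    apply Real.log_le_log (by positivity)
    rw [div_right_comm]
    exact div_le_div_of_nonneg_right hk3r hx0.le
  have hmin : (1 / 2) * min 1 (Real.log ((k : ℝ) / x) / Real.log y) ≤
      min 1 (Real.log ((k' : ℝ) / x) / Real.log y) := by
    apply le_min
    · have := min_le_left 1 (Real.log ((k : ℝ) / x) / Real.log y)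
      linarith
    · have h1 := min_le_right 1 (Real.log ((k : ℝ) / x) / Real.log y)
      calc (1 / 2) * min 1 (Real.log ((k : ℝ) / x) / Real.log y)
          ≤ (1 / 2) * (Real.log ((k : ℝ) / x) / Real.log y) := by linarith
        _ = (Real.log ((k : ℝ) / x) / 2) / Real.log y := by ring
        _ ≤ _ := div_le_div_of_nonneg_right hlogK hlogy.le
  have hsum : ∑ p ∈ MissZ x y m, (1 / (p : ℝ)) * (L / Real.log ((k' : ℝ) / p)) ≤
      2 * ∑ p ∈ MissZ x y m, (1 / (p : ℝ)) * (L / Real.log ((k : ℝ) / p)) := by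
    rw [Finset.mul_sum]
    apply Finset.sum_le_sum
    intro p hp
    obtain ⟨hpx, hpp, _⟩ := mem_MissZ.mp hp
    have hp0 : (0 : ℝ) < p := by exact_mod_cast hpp.pos
    have hpxr : (p : ℝ) ≤ x := by exact_mod_cast hpx
    have h1 : (9 : ℝ) ≤ (k : ℝ) / p := by
      rw [le_div_iff₀ hp0]
      nlinarith
    have h2 : Real.log ((k : ℝ) / p) / 2 ≤ Real.log ((k' : ℝ) / p) := by
      refine (hhalf _ h1).trans ?_
      apply Real.log_le_log (by positivity)
      rw [div_right_comm]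
      exact div_le_div_of_nonneg_right hk3r hp0.le
    have h3 : 0 < Real.log ((k : ℝ) / p) := Real.log_pos (by linarith)
    have h4 : L / Real.log ((k' : ℝ) / p) ≤ 2 * (L / Real.log ((k : ℝ) / p)) := by
      rw [mul_div_assoc', div_le_div_iff₀ (by linarith) h3]
      nlinarith
    calc (1 / (p : ℝ)) * (L / Real.log ((k' : ℝ) / p))
        ≤ (1 / (p : ℝ)) * (2 * (L / Real.log ((k : ℝ) / p))) :=
          mul_le_mul_of_nonneg_left h4 (by positivity)
      _ = 2 * ((1 / (p : ℝ)) * (L / Real.log ((k : ℝ) / p))) := by ring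
  have hfin := hmain.trans hsum
  have h5 := mul_le_mul_of_nonneg_left hmin hc₁.le
  linarith

/-- the limit of the Erdos-Rankin method, for given constants -/
def StB3 (B C c₀ : ℝ) : Prop := ∃ x₀ : ℕ, ∀ x ≥ x₀, ∀ (y z k n : ℕ) (m : ℤ),
    2 ≤ y → (y : ℝ) ≤ (x : ℝ) ^ c₀ → 1 ≤ z → z ≤ x → InA x k n →
    |(m : ℝ) - n| ≤ B * (x + k) → (∀ p : ℕ, p.Prime → y < p → p ≤ z → (p : ℤ) ∣ m) →
    (k : ℝ) ≤ x * Real.exp (C * (1 + Real.log ((x : ℝ) / z) +
      Real.sqrt (Real.log y * (1 + Real.log ((x : ℝ) / z)))))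

theorem partB3 {c₀ : ℝ} (h : ∀ B : ℝ, ∃ K₀ c₁ : ℝ, 1 ≤ K₀ ∧ 0 < c₁ ∧ StA3 B K₀ c₀ c₁) (B : ℝ) :
    ∃ C : ℝ, 0 < C ∧ StB3 B C c₀ := by
  obtain ⟨Cm, hCm, hM⟩ := Helper10.P5.mertens_interval
  obtain ⟨A, hA, x₁, hpoly⟩ := run_poly
  obtain ⟨K₀, c₁, hK₀, hc₁, x₂, hA3⟩ := h (2 * |B|)
  obtain ⟨β, hβ⟩ : ∃ β, β = 2 * (1 + Cm) / c₁ := ⟨_, rfl⟩
  have hβ0 : 0 < β := by rw [hβ]; positivity
  have hlK0 : 0 ≤ Real.log K₀ := Real.log_nonneg hK₀
  obtain ⟨C', hC'⟩ : ∃ C', C' = Real.log K₀ + β + Real.sqrt β + 2 * A := ⟨_, rfl⟩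
  have hsβ : 0 ≤ Real.sqrt β := Real.sqrt_nonneg _
  have hAr : (2 : ℝ) ≤ A := by exact_mod_cast hA
  have hC'0 : 0 < C' := by linarith
  refine ⟨C', hC'0, max (max x₁ x₂) 2, ?_⟩
  intro x hx y z k n m hy1 hy2 hz1 hzx hI hmn hmd
  have hxx₁ : x₁ ≤ x := le_trans (le_trans (le_max_left _ _) (le_max_left _ _)) hx
  have hxx₂ : x₂ ≤ x := le_trans (le_trans (le_max_right _ _) (le_max_left _ _)) hx
  have hx2 : 2 ≤ x := le_trans (le_max_right _ _) hx
  have hx0 : (0 : ℝ) < x := by exact_mod_cast (by omega : 0 < x)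
  have hx1r : (1 : ℝ) < x := by exact_mod_cast (by omega : 1 < x)
  obtain ⟨L, hLdef⟩ : ∃ L, L = Real.log x := ⟨_, rfl⟩
  have hL0 : 0 < L := by
    rw [hLdef]
    exact Real.log_pos hx1r
  have hz0 : (0 : ℝ) < z := by exact_mod_cast (by omega : 0 < z)
  have hw0 : 0 ≤ Real.log ((x : ℝ) / z) := by
    apply Real.log_nonneg
    rw [le_div_iff₀ hz0, one_mul]
    exact_mod_cast hzx
  have hwz : Real.log ((x : ℝ) / z) = L - Real.log z := by
    rw [Real.log_div hx0.ne' hz0.ne', hLdef]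
  obtain ⟨w, hw⟩ : ∃ w, w = Real.log ((x : ℝ) / z) := ⟨_, rfl⟩
  rw [← hw] at hw0 hwz ⊢
  have hsq0 : 0 ≤ Real.sqrt (Real.log y * (1 + w)) := Real.sqrt_nonneg _
  rcases Nat.eq_zero_or_pos k with hk0 | hk0
  · subst hk0
    rw [Nat.cast_zero]
    positivity
  have hk0r : (0 : ℝ) < k := by exact_mod_cast hk0
  have hgoal : Real.log ((k : ℝ) / x) ≤ C' * (1 + w + Real.sqrt (Real.log y * (1 + w))) →
      (k : ℝ) ≤ x * Real.exp (C' * (1 + w + Real.sqrt (Real.log y * (1 + w)))) := by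
    intro h1
    have h2 := Real.exp_le_exp.mpr h1
    rw [Real.exp_log (by positivity), div_le_iff₀ hx0] at h2
    linarith
  apply hgoal
  rcases lt_or_ge (k : ℝ) (K₀ * x) with hsmall | hlarge
  · have h1 : (k : ℝ) / x ≤ K₀ := by
      rw [div_le_iff₀ hx0]
      linarith
    have h2 := Real.log_le_log (by positivity) h1
    refine h2.trans ?_
    have h3 : Real.log K₀ ≤ C' := by rw [hC']; linarith
    have h4 : 0 ≤ C' * (w + Real.sqrt (Real.log y * (1 + w))) := by positivity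
    nlinarith
  · rcases lt_or_ge (Real.log z) (L / 2) with hzs | hlz
    · -- small z: the polynomial bound
      have h1 := hpoly x hxx₁ k n hI
      have h2 : (k : ℝ) ≤ (x : ℝ) ^ A := by exact_mod_cast h1
      have h3 := Real.log_le_log hk0r h2
      rw [Real.log_pow, ← hLdef] at h3
      rw [Real.log_div hk0r.ne' hx0.ne', ← hLdef]
      have h4 : L / 2 ≤ w := by rw [hwz]; linarith
      have h5 : A * L ≤ C' * w := by
        have h6 : 2 * A ≤ C' := by rw [hC']; linarith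
        nlinarith
      have h7 : 0 ≤ C' * (1 + Real.sqrt (Real.log y * (1 + w))) := by positivity
      nlinarith
    · have hxk : (x : ℝ) ≤ k := by nlinarith
      have hmn' : |(m : ℝ) - n| ≤ 2 * |B| * k := by
        refine hmn.trans ?_
        have h1 : B * ((x : ℝ) + k) ≤ |B| * (x + k) :=
          mul_le_mul_of_nonneg_right (le_abs_self B) (by positivity)
        nlinarith [abs_nonneg B]
      have hA' := hA3 x hxx₂ y k n m hy1 hy2 hlarge hI hmn'
      rw [← hLdef] at hA'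
      have hly : 0 < Real.log y := Real.log_pos (by exact_mod_cast (by omega : 1 < y))
      rcases eq_or_lt_of_le hxk with heq | hlt
      · rw [← heq, div_self hx0.ne', Real.log_one]
        positivity
      have hK : 1 < (k : ℝ) / x := by
        rw [lt_div_iff₀ hx0, one_mul]
        exact hlt
      have hlK : 0 < Real.log ((k : ℝ) / x) := Real.log_pos hK
      have hExc : ∀ p ∈ MissZ x y m, p.Prime ∧ z < p ∧ p ≤ x := by
        intro p hp
        obtain ⟨hpx, hpp, h4, h5⟩ := mem_MissZ.mp hp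
        refine ⟨hpp, ?_, hpx⟩
        by_contra h6
        exact h5 (hmd p hpp h4 (by omega))
      have hwin := sum_primes_window hCm hM hLdef hL0 hz1 hzx hlz (MissZ x y m) hExc
      rw [← hw] at hwin
      have hbound : ∑ p ∈ MissZ x y m, (1 / (p : ℝ)) * (L / Real.log ((k : ℝ) / p)) ≤
          c₁ * β * (1 + w) / Real.log ((k : ℝ) / x) := by
        calc ∑ p ∈ MissZ x y m, (1 / (p : ℝ)) * (L / Real.log ((k : ℝ) / p))
            ≤ ∑ p ∈ MissZ x y m, (1 / (p : ℝ)) * (L / Real.log ((k : ℝ) / x)) := by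
              apply Finset.sum_le_sum
              intro p hp
              obtain ⟨hpp, hzp, hpx⟩ := hExc p hp
              have hp0 : (0 : ℝ) < p := by exact_mod_cast hpp.pos
              apply mul_le_mul_of_nonneg_left _ (by positivity)
              apply div_le_div_of_nonneg_left hL0.le hlK
              apply Real.log_le_log (by positivity)
              exact div_le_div_of_nonneg_left hk0r.le hp0 (by exact_mod_cast hpx)
          _ = (L / Real.log ((k : ℝ) / x)) * ∑ p ∈ MissZ x y m, (1 : ℝ) / p := by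
              rw [← Finset.sum_mul, mul_comm]
          _ ≤ (L / Real.log ((k : ℝ) / x)) * (2 * (1 + Cm) * (1 + w) / L) :=
              mul_le_mul_of_nonneg_left hwin (by positivity)
          _ = c₁ * β * (1 + w) / Real.log ((k : ℝ) / x) := by
              rw [hβ]
              field_simp
      have hs := solve_ineq hc₁ hβ0 hlK hly hw0 (hA'.trans hbound)
      refine hs.trans ?_
      have h3 : β * (1 + w) ≤ C' * (1 + w) := by
        apply mul_le_mul_of_nonneg_right _ (by linarith)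
        rw [hC']
        linarith
      have h4 : Real.sqrt β * Real.sqrt (Real.log y * (1 + w)) ≤
          C' * Real.sqrt (Real.log y * (1 + w)) := by
        apply mul_le_mul_of_nonneg_right _ hsq0
        rw [hC']
        linarith
      linarith

end Pool.Agent.Helper6.ER3
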