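import Mathlib
import Pool.Agent.Helper6.ER3.Parts
import Pool.Agent.Helper6.ER2.Final
import Pool.Agent.Helper6.SW.MassAll
import Pool.Agent.Helper16.SW.ZCompact
import Pool.Agent.Helper16.SW.ZSum
import Pool.Agent.Helper16.SW.ZUp
import Pool.Agent.Helper51.SW.ZLD
import Pool.Agent.Helper51.SW.ZLower
import Pool.Agent.Helper51.SW.ZTransform

/-! Final form: the prime number theorem in smoothed form (windows of every width), the sieve for
primes in windows of every width, the structure theorem for runs with an integer at distance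
`B k` and the limit of the Erdos-Rankin method. -/

namespace Pool.Agent.Helper6.ER3

open Finset Pool.Agent.Helper6.SW Pool.Agent.Helper6.ER Pool.Agent.Helper6.ER2

/-- the prime number theorem in smoothed form: order of magnitude in every window -/
theorem massAll : StMassAll :=
  stMassAll_of
    (Helper51.SW.stZLD_of Helper16.SW.stZDeriv
      (Helper51.SW.stZLower_of Helper16.SW.stZDeriv Helper16.SW.stTrivA Helper16.SW.stTrivB)
      Helper16.SW.stZUp)
    Helper16.SW.stZCompact Helper51.SW.stZTransform Helper51.SW.stTent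
    Helper16.SW.stOmSum Helper16.SW.stPrimePow

theorem primeSieveAll : StPSLAll :=
  pslAll_of bombieriVinogradov massAll Helper16.SW.stMinorant

theorem exists_core3 : ∃ c₀ : ℝ, 0 < c₀ ∧ ∀ V : ℝ, 0 < V → ∀ A : ℕ, 2 ≤ A →
    ∃ K₀ c₁ : ℝ, 0 < K₀ ∧ 0 < c₁ ∧ StCore3 V A K₀ c₀ c₁ :=
  core3_of primeSieveAll Helper97.SW.stNsum

/-- the structure theorem for all runs -/
theorem exists_A3 : ∃ c₀ : ℝ, 0 < c₀ ∧ ∀ B : ℝ, ∃ K₀ c₁ : ℝ, 1 ≤ K₀ ∧ 0 < c₁ ∧
    StA3 B K₀ c₀ c₁ := by
  obtain ⟨c₀, hc₀, h⟩ := exists_core3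
  exact ⟨c₀, hc₀, fun B => partA3 h B⟩

/-- the limit of the Erdos-Rankin method -/
theorem exists_B3 : ∃ c₀ : ℝ, 0 < c₀ ∧ ∀ B : ℝ, ∃ C : ℝ, 0 < C ∧ StB3 B C c₀ := by
  obtain ⟨c₀, hc₀, h⟩ := exists_A3
  exact ⟨c₀, hc₀, fun B => partB3 h B⟩

end Pool.Agent.Helper6.ER3
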