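import Mathlib
import Pool.Agent.Helper6.ER3.Final
import Pool.Agent.Helper6.ER.PartC

/-! The exponent one: if almost all primes of `(x^c₀, x]` divide an integer near the run, then the
run has length at most `x^(1+ε)`. -/

namespace Pool.Agent.Helper6.ER3

open Finset Filter Pool.Agent.Helper6.SW Pool.Agent.Helper6.ER Pool.Agent.Helper6.ER2

/-- the statement of the exponent theorem for a given constant -/
def StC3 (c₀ : ℝ) : Prop := ∀ B ε : ℝ, 0 < ε → ∃ δ : ℝ, 0 < δ ∧ ∃ k₀ : ℕ, ∀ k ≥ k₀,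
    ∀ (x n : ℕ) (m : ℤ), InA x k n → |(m : ℝ) - n| ≤ B * (x + k) →
    ∑ p ∈ (range (x + 1)).filter (fun p : ℕ => p.Prime ∧ (x : ℝ) ^ c₀ < p ∧ ¬ (p : ℤ) ∣ m),
      (1 : ℝ) / p ≤ δ → (k : ℝ) ^ (1 - ε) ≤ x

theorem partC3 {c₀ : ℝ} (hc₀ : 0 < c₀) (h : ∀ B : ℝ, ∃ K₀ c₁ : ℝ, 1 ≤ K₀ ∧ 0 < c₁ ∧
    StA3 B K₀ c₀ c₁) : StC3 c₀ := by
  intro B ε hε
  obtain ⟨K₀, c₁, hK₀, hc₁, x₁, hA3⟩ := h (2 * |B|)
  obtain ⟨μ, hμ⟩ : ∃ μ, μ = c₁ * min 1 (ε / c₀) := ⟨_, rfl⟩
  have hμ0 : 0 < μ := by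
    rw [hμ]
    exact mul_pos hc₁ (lt_min one_pos (by positivity))
  refine ⟨ε * μ / 2, by positivity, ?_⟩
  have hlog : Tendsto (fun x : ℕ => Real.log (x : ℝ)) atTop atTop :=
    Real.tendsto_log_atTop.comp tendsto_natCast_atTop_atTop
  obtain ⟨x₂, hx₂⟩ := eventually_atTop.mp (hlog.eventually_ge_atTop
    (max (Real.log K₀ / ε) (1 / c₀)))
  obtain ⟨x₀, hx₀⟩ : ∃ x₀, x₀ = max (max x₁ x₂) 2 := ⟨_, rfl⟩
  refine ⟨max 1 (∏ p ∈ PR x₀, p), ?_⟩
  intro k hk x n m hI hmn hsum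
  have hk1 : 1 ≤ k := le_trans (le_max_left _ _) hk
  have hk2 : ∏ p ∈ PR x₀, p ≤ k := le_trans (le_max_right _ _) hk
  have hk1r : (1 : ℝ) ≤ k := by exact_mod_cast hk1
  have hk0r : (0 : ℝ) < k := by linarith
  have hxx : x₀ ≤ x := by
    by_contra hlt
    push Not at hlt
    have h1 := run_lt hI
    have h2 : ∏ p ∈ PR x, p ≤ ∏ p ∈ PR x₀, p := by
      apply Finset.prod_le_prod_of_subset_of_one_le'
      · intro p hp
        rw [mem_PR] at hp ⊢
        exact ⟨by omega, hp.2⟩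
      · intro p hp _
        exact (mem_PR.mp hp).2.pos
    omega
  have hxx₁ : x₁ ≤ x := le_trans (le_trans (le_max_left _ _) (le_max_left _ _)) (hx₀ ▸ hxx)
  have hxx₂ : x₂ ≤ x := le_trans (le_trans (le_max_right _ _) (le_max_left _ _)) (hx₀ ▸ hxx)
  have hx2 : 2 ≤ x := le_trans (le_max_right _ _) (hx₀ ▸ hxx)
  have hx0 : (0 : ℝ) < x := by exact_mod_cast (by omega : 0 < x)
  have hx1r : (1 : ℝ) < x := by exact_mod_cast (by omega : 1 < x)
  obtain ⟨L, hLdef⟩ : ∃ L, L = Real.log x := ⟨_, rfl⟩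
  have hL0 : 0 < L := by
    rw [hLdef]
    exact Real.log_pos hx1r
  have hLbig := hx₂ x hxx₂
  rw [← hLdef] at hLbig
  have hLK : Real.log K₀ ≤ ε * L := by
    have h1 := (le_max_left _ _).trans hLbig
    rw [div_le_iff₀ hε] at h1
    linarith
  have hLc : 1 ≤ c₀ * L := by
    have h1 := (le_max_right _ _).trans hLbig
    rw [div_le_iff₀ hc₀] at h1
    linarith
  by_contra hcon
  push Not at hcon
  -- the run is long
  have hlk : (1 + ε) * L ≤ Real.log k := by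
    have h1 := Real.log_lt_log hx0 hcon
    rw [Real.log_rpow hk0r, ← hLdef] at h1
    have h2 : 0 ≤ Real.log k := Real.log_nonneg hk1r
    nlinarith [sq_nonneg ε]
  have hlkx : ε * L ≤ Real.log ((k : ℝ) / x) := by
    rw [Real.log_div hk0r.ne' hx0.ne', ← hLdef]
    linarith
  have hKx : K₀ * x ≤ k := by
    have h1 : Real.log (K₀ * x) ≤ Real.log k := by
      rw [Real.log_mul (by linarith) hx0.ne', ← hLdef]
      linarith
    exact (Real.log_le_log_iff (by positivity) hk0r).mp h1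
  have hxk : (x : ℝ) ≤ k := by nlinarith
  have hmn' : |(m : ℝ) - n| ≤ 2 * |B| * k := by
    refine hmn.trans ?_
    have h1 : B * ((x : ℝ) + k) ≤ |B| * (x + k) :=
      mul_le_mul_of_nonneg_right (le_abs_self B) (by positivity)
    nlinarith [abs_nonneg B]
  -- the parameter y
  obtain ⟨y, hy⟩ : ∃ y, y = ⌊(x : ℝ) ^ c₀⌋₊ := ⟨_, rfl⟩
  have hxc : Real.exp 1 ≤ (x : ℝ) ^ c₀ := by
    rw [Real.rpow_def_of_pos hx0, ← hLdef]
    apply Real.exp_le_exp.mpr
    linarith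
  have hy2 : 2 ≤ y := by
    rw [hy]
    apply Nat.le_floor
    have := Real.add_one_le_exp (1 : ℝ)
    push_cast
    linarith
  have hyx : (y : ℝ) ≤ (x : ℝ) ^ c₀ := by
    rw [hy]
    exact Nat.floor_le (by positivity)
  have hly : 0 < Real.log y := Real.log_pos (by exact_mod_cast (by omega : 1 < y))
  have hly2 : Real.log y ≤ c₀ * L := by
    have h1 := Real.log_le_log (by exact_mod_cast (by omega : 0 < y)) hyx
    rwa [Real.log_rpow hx0, ← hLdef] at h1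
  have hmain := hA3 x hxx₁ y k n m hy2 hyx hKx hI hmn'
  rw [← hLdef] at hmain
  have hmin : min 1 (ε / c₀) ≤ min 1 (Real.log ((k : ℝ) / x) / Real.log y) := by
    apply min_le_min le_rfl
    rw [div_le_div_iff₀ hc₀ hly]
    calc ε * Real.log y ≤ ε * (c₀ * L) := mul_le_mul_of_nonneg_left hly2 hε.le
      _ = (ε * L) * c₀ := by ring
      _ ≤ Real.log ((k : ℝ) / x) * c₀ := mul_le_mul_of_nonneg_right hlkx hc₀.le
  have hset : MissZ x y m =
      (range (x + 1)).filter (fun p : ℕ => p.Prime ∧ (x : ℝ) ^ c₀ < p ∧ ¬ (p : ℤ) ∣ m) := by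
    ext p
    unfold MissZ
    rw [mem_filter, mem_filter, hy, Nat.floor_lt (by positivity)]
  have hup : ∑ p ∈ MissZ x y m, (1 / (p : ℝ)) * (L / Real.log ((k : ℝ) / p)) ≤
      (1 / ε) * ∑ p ∈ MissZ x y m, (1 : ℝ) / p := by
    rw [Finset.mul_sum]
    apply Finset.sum_le_sum
    intro p hp
    obtain ⟨hpx, hpp, _, _⟩ := mem_MissZ.mp hp
    have hp0 : (0 : ℝ) < p := by exact_mod_cast hpp.pos
    have h1 : ε * L ≤ Real.log ((k : ℝ) / p) := by
      refine hlkx.trans ?_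
      apply Real.log_le_log (by positivity)
      exact div_le_div_of_nonneg_left hk0r.le hp0 (by exact_mod_cast hpx)
    have h2 : 0 < ε * L := by positivity
    calc (1 / (p : ℝ)) * (L / Real.log ((k : ℝ) / p)) ≤ (1 / (p : ℝ)) * (L / (ε * L)) := by
          apply mul_le_mul_of_nonneg_left _ (by positivity)
          exact div_le_div_of_nonneg_left hL0.le h2 h1
      _ = (1 / ε) * ((1 : ℝ) / p) := by
          field_simp
  rw [hset] at hup hmain
  have h1 : μ ≤ (1 / ε) * (ε * μ / 2) := by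
    calc μ = c₁ * min 1 (ε / c₀) := hμ
      _ ≤ c₁ * min 1 (Real.log ((k : ℝ) / x) / Real.log y) :=
          mul_le_mul_of_nonneg_left hmin hc₁.le
      _ ≤ _ := hmain.trans hup
      _ ≤ (1 / ε) * (ε * μ / 2) := mul_le_mul_of_nonneg_left hsum (by positivity)
  have h2 : (1 / ε) * (ε * μ / 2) = μ / 2 := by field_simp
  rw [h2] at h1
  linarith

/-- structure theorem and exponent theorem together -/
theorem exists_AC3 : ∃ c₀ : ℝ, 0 < c₀ ∧ (∀ B : ℝ, ∃ K₀ c₁ : ℝ, 1 ≤ K₀ ∧ 0 < c₁ ∧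
    StA3 B K₀ c₀ c₁) ∧ StC3 c₀ := by
  obtain ⟨c₀, hc₀, h⟩ := exists_A3
  exact ⟨c₀, hc₀, h, partC3 hc₀ h⟩

end Pool.Agent.Helper6.ER3
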